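import Mathlib
import Pool.Agent.Q18.P.RS3

/-!
# Generic representations of classical groups: strict bounds at all places from logarithmic means at one real point

Let `G` be a quasi-split classical group over a number field, `Π_G` a globally generic unitary cuspidal automorphic
representation of `G`, and `Π` its functorial lift to `GL_n` over the number field `K` (`K` is the base field, or the
quadratic extension if `G` is a unitary group).  The lift is an isobaric sum of `r` distinct (conjugate) self-dual unitary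
cuspidal representations of groups `GL_{n_i}` (Cogdell, Kim, Piatetski-Shapiro, Shahidi; Arthur; Mok), and it is
cuspidal only if `r = 1`.  Let `α_{i,v}`, `v ∉ S`, be the eigenvalues of the Satake parameter and `λ(v) = ∑_i α_{i,v}`.
Let `χ_0 = 1, χ_1, ..., χ_m` be Hecke characters of `K` of finite order, unramified outside `S`, such that the weights
`w(v) = ∑_j χ_j(v)` satisfy `∑_j χ_j(v)^k ≥ 0` for all `k` (for the characters of an abelian extension `L / K`:
`w(v) = [L : K]` at the places which split completely and `0` at the others), and `e_j` the order of the pole of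
`L^S(s, Π × Π~ × χ_j)` at `s = 1`, so that `e_0 = r`.  For a real number `c > 0` put

  `T_c(y) = (∑_j e_j) log ∏_{p ≤ y} (1 - p^{-c})⁻¹ - ∑_{N v ≤ y, v ∉ S} w(v) |λ(v)|² (N v)^{-c}`

(`p` runs through the rational primes).

**Theorem.**  Suppose that for some `c > 0`, `0 < δ < 1`, `ρ`, `B` there are arbitrarily large `Y` with

  `∫_{Y^{1-δ}}^Y max(T_c(y) - ρ log log y, 0) dy / y ≤ B log Y`.

Then

* `|log_{N v} |α_{i,v}|| ≤ c / 2` for all `v ∉ S`, and no local factor `L(s, Π_v × Π~_v)` at the places `v ∈ S` and at the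
  archimedean places has a real pole `> c`: the bound `c / 2` towards the Ramanujan conjecture at ALL places;
* if `ρ < 1`, these inequalities are STRICT: `|log_{N v} |α_{i,v}|| < c / 2`, and no real pole is `≥ c`;
* `∏_j L^S(s, Π × Π~ × χ_j) / ζ(s)^{∑ e_j}` has no zeros and no poles in the half-plane `Re s > c`;
* its order at `s = c` is at most `ρ`.

In other words: if the Ramanujan conjecture fails for `Π_G` at ONE unramified place `v` by at least `c / 2`
(`|α_{i,v}| ≥ (N v)^{c/2}`), or at a ramified or archimedean place, then for every `ρ < 1` the logarithmic mean of the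
positive part of `T_c(y) - ρ log log y` over the window `[Y^{1-δ}, Y]` tends to infinity with `Y`.

`OneSidedIsobaric` of this problem (this run) needs the POINTWISE one-sided bound
`∑_{N v ≤ x} w(v) |λ(v)|² > (∑_j e_j) π(x) - A x^c` at all points `x` of the windows, for `c ≥ 1/2`, and gives the bounds
with `≤`, and nothing at `s = c`.  Here only a mean of the positive part is bounded; neither hypothesis implies the other.
Nothing is assumed of the zeros of any `L`-function.

The structures `IsobaricRepK` and `TwistK` list what is used; all of it is known for every isobaric sum of distinct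
unitary cuspidal representations, none of which is isomorphic to another one twisted by `|det|^{it}`, as is the case for
the lifts (Jacquet, Piatetski-Shapiro, Shalika; Moeglin, Waldspurger): the local components at `v ∉ S` are unitary; the
Rankin-Selberg series converges absolutely for `Re s > 1`; `(s - 1)^r L(s, Π × Π~)` is entire, with Euler factors of
degree `≤ n²` at `v ∈ S`, and the completed function, with `n² [K : ℚ]` factors `Γ_ℝ(s + κ_j)`, times
`s^r (s - 1)^r`, is entire; `(s - 1)^{e_j} L^S(s, Π × Π~ × χ_j)` is entire.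

The proof: let `F(s) = ∏_j L^S(s, Π × Π~ × χ_j) / ζ(s)^{∑ e_j}`.  It has no real poles in `s > 0`, since `ζ` has no zeros
there.  The prime powers contribute to the summatory function with a sign; a one-sided bound of the logarithmic means
on one sequence of windows excludes all zeros and poles to the right of `c`, and bounds the order at `c`.  A real pole of
an archimedean factor, or of an Euler factor at `S`, is a real zero of `F`, because the completed function is entire;
for `v ∉ S` one removes the Euler factor at `v`, whose poles become zeros of the new `F`.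
-/

set_option autoImplicit false

namespace Pool.Agent.Results.MP_08cfa9_nt.CriticalMeansIsobaric

open NumberField IsDedekindDomain Pool.Agent.Q12.WN Pool.Agent.Q18.P
open Pool.Agent.TH861.GL3 (PL qq)

open scoped Classical in
/-- **Lifts of generic representations of classical groups: one-sided logarithmic means at the point `c` on one sequence
of windows bound all local components, strictly if `ρ < 1`.** -/
theorem result {K : Type*} [Field K] [NumberField K] {n r : ℕ} {S : Finset (HeightOneSpectrum (𝓞 K))}
    {α : PL S → Fin n → ℂ} {β : HeightOneSpectrum (𝓞 K) → Fin (n ^ 2) → ℂ}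
    {κ : Fin (n ^ 2 * Module.finrank ℚ K) → ℂ} (h : IsobaricRepK S r α β κ) {c δ ρ B : ℝ} (hc : 0 < c) (hδ : 0 < δ)
    (hδ1 : δ < 1) (m : ℕ) (χ : Fin (m + 1) → PL S → ℂ) (e : Fin (m + 1) → ℕ) (hχ0 : ∀ v, χ 0 v = 1) (he0 : e 0 = r)
    (hχ : ∀ j ≠ 0, TwistK α (χ j) (e j))
    (hw : ∀ (v : PL S) (k : ℕ), ∃ w : ℝ, 0 ≤ w ∧ ∑ j, χ j v ^ (k + 1) = (w : ℂ))
    -- the one-sided bound in the mean, on one sequence of windows
    (hY : ∀ Y₀ : ℝ, ∃ Y : ℝ, Y₀ ≤ Y ∧ ∫ y in (Y ^ (1 - δ))..Y,
      max (((∑ j, e j : ℕ) * (-∑' p : Nat.Primes, if ((p : ℕ) : ℝ) ≤ y then Real.log (1 - ((p : ℕ) : ℝ) ^ (-c)) else 0) -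
        ∑' v : PL S, if (qq v.1 : ℝ) ≤ y then (∑ j, χ j v).re * ‖∑ i, α v i‖ ^ 2 * (qq v.1 : ℝ) ^ (-c) else 0) -
          ρ * Real.log (Real.log y)) 0 / y ≤ B * Real.log Y) :
    -- the unramified places
    (∀ (v : PL S) (i : Fin n), |Real.logb (qq v.1 : ℝ) ‖α v i‖| ≤ c / 2) ∧
    -- the places in `S`
    (∀ v ∈ S, ∀ (i : Fin (n ^ 2)) (x : ℝ), β v i = ((qq v : ℕ) : ℂ) ^ (x : ℂ) → x ≤ c) ∧
    -- the archimedean places
    (∀ (j : Fin (n ^ 2 * Module.finrank ℚ K)) (x : ℝ), κ j = -(x : ℂ) → x ≤ c) ∧
    -- strict bounds if `ρ < 1`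
    (ρ < 1 → (∀ (v : PL S) (i : Fin n), |Real.logb (qq v.1 : ℝ) ‖α v i‖| < c / 2) ∧
      (∀ v ∈ S, ∀ (i : Fin (n ^ 2)) (x : ℝ), β v i = ((qq v : ℕ) : ℂ) ^ (x : ℂ) → x < c) ∧
      (∀ (j : Fin (n ^ 2 * Module.finrank ℚ K)) (x : ℝ), κ j = -(x : ℂ) → x < c)) ∧
    -- the half-plane `Re s > c`, and the order at `s = c`
    (∀ F : ℂ → ℂ, MeromorphicOn F Set.univ →
      (∀ s : ℂ, 1 < s.re → F s * riemannZeta s ^ (∑ j, e j) = Complex.exp (∑ j, logK (χ j) (tr2 α) s)) →
      (∀ s : ℂ, c < s.re → meromorphicOrderAt F s = 0) ∧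
      ∃ k : ℤ, meromorphicOrderAt F (c : ℂ) = k ∧ (k : ℝ) ≤ ρ) := by
  have hB : OneSidedMean δ ρ B (diffK α (fun v => (∑ j, χ j v).re) (∑ j, e j) c) := fun Y₀ => hY Y₀
  obtain ⟨h1, h2, h3, h4, h5⟩ := nf_crit h hc (χ := χ) (e := e) (j₀ := 0) hχ0 (fun j => by
    by_cases hj : j = 0
    · subst hj
      exact Or.inl ⟨hχ0, he0⟩
    · exact Or.inr ⟨hj, hχ j hj⟩) hw hδ hδ1 hB
  refine ⟨fun v i => ?_, h2, h3, fun hρ => ⟨fun v i => ?_, (h4 hρ).2⟩, h5⟩
  · have := h1 v i
    linarith
  · have := (h4 hρ).1 v i
    linarith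

end Pool.Agent.Results.MP_08cfa9_nt.CriticalMeansIsobaric
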