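import Pool.Agent.Q18.W.Mean6
import Pool.Agent.Results.MP_cd906c_nt.OneSequenceOfWindows

/-!
# Comparison of the ranks of elliptic curves over number fields by means over one sequence of windows

Let `E_j` be elliptic curves over number fields `K_j`, `j ∈ J`, `J` finite (the fields may be different), let
`P_j(x) = ∏_{Nv ≤ x} #E_j(k_v)/Nv` be the original product of Birch and Swinnerton-Dyer, `v ∤ 6Δ_j`, and let `w_j` be
integers, positive or negative. The subject is the product

`P(x) = ∏_j P_j(x)^{w_j}`,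

for instance `P_1(x)/P_2(x)` for two curves, or `∏_j P_j(x)` for a finite family. Let `F_j` be a continuation of the
`L`-series of `E_j/K_j`, meromorphic at every point with `Re s > 1` and at `s = 1`, and `G = ∏_j F_j^{w_j}`. Fix
`0 < δ < 1`; the conditions contain only the values of `P` in the windows `[Y^(1-δ), Y]` for an unbounded set of
values of `Y`, as sparse as we like (below: `for arbitrarily large Y`).

1. If `G` has no real poles `> 1` and `∫_{Y^(1-δ)}^Y max (log P(y) - κ log log y, 0) dy/y ≤ B log Y` for arbitrarily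
   large `Y`, then `G` has no zeros and no poles with `Re s > 1`, and `∑_j w_j ord_{s=1} F_j ≤ κ`. For two curves
   (`w = (1, -1)`, `κ = 0`): if `P_1(x) ≤ C P_2(x)` in the windows, or only in the mean, then `L(E_1, s)` has at most
   the order of `L(E_2, s)` at `s = 1`, and the two `L`-functions have the same zeros and poles with `Re s > 1`. If
   `E_2` is a curve over `ℚ` of analytic rank `0` or `1` this bounds the analytic rank of `E_1` without mention of any
   exponent of `log x`.
2. If `∫_{Y^(1-δ)}^Y |log P(y) - ρ log log y| dy/y ≤ B log Y` for arbitrarily large `Y`, then `G` has no zeros and no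
   poles with `Re s > 1`, and `∑_j w_j ord_{s=1} F_j = ρ`: e.g. if `P_1/P_2` is bounded and bounded away from zero in
   the windows, the analytic ranks are equal.
3. If `(log Y)⁻¹ ∫_{Y^(1-δ)}^Y |log (A P*(y)/(e^γ log y)^ρ)| dy/y → 0` along a sequence `Y → ∞`, where `P*` is the
   product with the prime powers, then moreover `∏_j |c_j|^{w_j} = A` for the leading coefficients `c_j`.
4. (Nothing assumed on the product.) If `G` has no real poles `> 1` and `A > ∏_j |c_j|^{w_j}`, there is a `β > 0` with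
   `∫_{Y^(1-δ)}^Y max (log (A P*(y)/(e^γ log y)^ρ), 0) dy/y > β log Y` for ALL large `Y`, `ρ = ∑_j w_j ord F_j`. For two
   curves with `ord F_1 > ord F_2` the quotient of the products is unbounded in the mean in every window.
5. (Equivalences.) Suppose that the `F_j` have continuations of polynomial growth to `Re s > 1 - η_j`, analytic except
   perhaps for a pole at `1`.
   (a) If all `w_j > 0`: `F_j` has no zeros with `Re s > 1` for all `j`, and `∑_j w_j ord F_j ≤ κ`, if AND ONLY IF the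
   bound of 1 holds for some `B` and arbitrarily large `Y`, if and only if it holds for some `B` and all large `Y`. (The
   Riemann hypothesis and a bound for the average rank of a finite family of curves.)
   (b) If the `F_j` have no zeros with `Re s > 1`, the weights being arbitrary: `∑_j w_j ord F_j ≤ κ` if and only if the
   bound of 1 holds for arbitrarily large `Y`, if and only if it holds for all large `Y`; the same for
   `∑_j w_j ord F_j = ρ` and the bound of 2.

The proof: the windows theorem in the mean of `Pool.Agent.Q18.W` for general Dirichlet series with coefficients of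
any sign, applied to the disjoint union of the systems of primes; the converse in 5 is
`MP_ae0bd0_nt.MeanProduct` for each curve.
-/

set_option autoImplicit false

namespace Pool.Agent.Results.MP_32c55d_nt.WeightedFamilies

open Filter Topology Set Complex NumberField IsDedekindDomain MeasureTheory
open Pool.Agent.Results.MP_ae0bd0_nt.MeanProduct (Good norm points trace factor upTo product powerSum
  productStar rank Tempered)
open Pool.Agent.Results.MP_cd906c_nt.OneSequenceOfWindows (Continues)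

variable {J : Type} [Fintype J] {K : J → Type} [∀ j, Field (K j)] [∀ j, NumberField (K j)]

/-- `P(x) = ∏_j P_j(x)^{w_j}`, `P_j` the product of Birch and Swinnerton-Dyer of `y² = x³ + a_j x + b_j`. -/
noncomputable def weighted (a b : ∀ j, 𝓞 (K j)) (w : J → ℤ) (y : ℝ) : ℝ := ∏ j, product (a j) (b j) y ^ w j

/-- `P*(x) = ∏_j P*_j(x)^{w_j}`, the products with the prime powers. -/
noncomputable def weightedStar (a b : ∀ j, 𝓞 (K j)) (w : J → ℤ) (y : ℝ) : ℝ :=
  ∏ j, productStar (a j) (b j) y ^ w j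

/-- `G = ∏_j F_j^{w_j}`. -/
noncomputable def combined (F : J → ℂ → ℂ) (w : J → ℤ) (s : ℂ) : ℂ := ∏ j, F j s ^ w j

/-- `G` has no zeros and no poles with `Re s > 1`. -/
def Free (G : ℂ → ℂ) : Prop := ∀ s : ℂ, 1 < s.re → meromorphicOrderAt G s = 0

/-- `G` has no real poles `x > 1`. -/
def NoRealPoles (G : ℂ → ℂ) : Prop := ∀ x : ℝ, 1 < x → 0 ≤ meromorphicOrderAt G (x : ℂ)

/-- `F` has no zeros with `Re s > 1`. -/
def NoZeros (F : ℂ → ℂ) : Prop := ∀ s : ℂ, 1 < s.re → F s ≠ 0

/-- The order of `F_j` at `1` is `m_j`, for all `j`. -/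
def Orders (F : J → ℂ → ℂ) (m : J → ℤ) : Prop := ∀ j, meromorphicOrderAt (F j) 1 = m j

/-- `c_j` is the leading coefficient of `F_j` at `1`, for all `j`; `m_j` is the order. -/
def Leading (F : J → ℂ → ℂ) (m : J → ℤ) (c : J → ℂ) : Prop :=
  ∀ j, Tendsto (fun s : ℂ => F j s / (s - 1) ^ m j) (𝓝[≠] 1) (𝓝 (c j))

/-- `∫_{Y^(1-δ)}^Y G(y) dy/y ≤ B log Y`. -/
def MeanBound (δ : ℝ) (G : ℝ → ℝ) (B Y : ℝ) : Prop := ∫ y in Y ^ (1 - δ)..Y, G y / y ≤ B * Real.log Y

/-- the positive part of `log P(y) - κ log log y` -/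
noncomputable def excess (a b : ∀ j, 𝓞 (K j)) (w : J → ℤ) (κ y : ℝ) : ℝ :=
  max (Real.log (weighted a b w y) - κ * Real.log (Real.log y)) 0

/-- `|log P(y) - ρ log log y|` -/
noncomputable def error (a b : ∀ j, 𝓞 (K j)) (w : J → ℤ) (ρ y : ℝ) : ℝ :=
  |Real.log (weighted a b w y) - ρ * Real.log (Real.log y)|

/-- `log (A P*(y) / (e^γ log y)^ρ)` -/
noncomputable def ratio (a b : ∀ j, 𝓞 (K j)) (w : J → ℤ) (A ρ y : ℝ) : ℝ :=
  Real.log (A * weightedStar a b w y / (Real.exp Real.eulerMascheroniConstant * Real.log y) ^ ρ)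

/-! ### translation -/

open Pool.Agent.Results.MP_ae0bd0_nt.MeanProduct (NN log_star star_pos log_product mero_shift)
open Pool.Agent.Results.MP_cd906c_nt.OneSequenceOfWindows (data prod_pos ord_shift coef_shift)
open Pool.Agent.TH942.ES (GoodV alV curve_sys zv xv)
open Pool.Agent.TH270.MS (Pl LI BM)
open Pool.Agent.Q5.MS (Pv)
open Pool.Agent.Q18.W (Win Dw Wm fF)

variable {a b : ∀ j, 𝓞 (K j)} {w : J → ℤ} {F : J → ℂ → ℂ}

theorem fF_shift (s : ℂ) : fF (fun j s => F j (1 + s)) w s = combined F w (1 + s) := rfl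

theorem ord_combined (s : ℂ) :
    meromorphicOrderAt (fF (fun j s => F j (1 + s)) w) s = meromorphicOrderAt (combined F w) (1 + s) := by
  rw [show fF (fun j s => F j (1 + s)) w = fun s => combined F w (1 + s) from funext fun s => fF_shift s]
  exact ord_shift _ _

theorem free_of (h : ∀ s : ℂ, 0 < s.re → meromorphicOrderAt (fF (fun j s => F j (1 + s)) w) s = 0) :
    Free (combined F w) := by
  intro s hs
  have h2 := h (s - 1) (by rw [Complex.sub_re, Complex.one_re]; linarith)
  rwa [ord_combined, add_sub_cancel] at h2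

theorem real_of (h : NoRealPoles (combined F w)) (x : ℝ) (hx : 0 < x) :
    0 ≤ meromorphicOrderAt (fF (fun j s => F j (1 + s)) w) (x : ℂ) := by
  rw [ord_combined]
  have := h (1 + x) (by linarith)
  push_cast at this
  exact this

theorem orders_of {m : J → ℤ} (h : ∀ j, meromorphicOrderAt (fun s => F j (1 + s)) 0 = m j) : Orders F m := by
  intro j
  rw [← h j, ord_shift, add_zero]

/-- the local form of a continuation of polynomial growth -/
theorem of_tempered {K : Type} [Field K] [NumberField K] {a b : 𝓞 K} {F : ℂ → ℂ} (h : Tempered a b F) :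
    Continues a b F ∧ (∀ s : ℂ, 1 < s.re → AnalyticAt ℂ F s) := by
  obtain ⟨⟨η, C, k, κ, G, hη, hG, hF⟩, h2⟩ := h
  have ho : IsOpen {s : ℂ | 1 - η < s.re} := isOpen_lt continuous_const Complex.continuous_re
  have hd : DifferentiableOn ℂ G {s : ℂ | 1 - η < s.re} := fun s hs => (hG s hs).1.differentiableWithinAt
  have han : ∀ z : ℂ, 1 - η < z.re → AnalyticAt ℂ G z := fun z hz => hd.analyticAt (ho.mem_nhds hz)
  have h3 : ∀ z : ℂ, 1 - η < z.re → MeromorphicAt F z := by
    intro z hz
    have h5 : MeromorphicAt (fun s : ℂ => G s / (s - 1) ^ k) z := by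
      have h5 : MeromorphicAt (fun s : ℂ => (s - 1) ^ k) z := by fun_prop
      exact (han z hz).meromorphicAt.div h5
    refine h5.congr ?_
    have e1 : ∀ᶠ s in 𝓝[≠] z, 1 - η < s.re := nhdsWithin_le_nhds (ho.mem_nhds hz)
    have e2 : ∀ᶠ s in 𝓝[≠] z, s ≠ (1 : ℂ) := by
      by_cases h : z = 1
      · rw [h]
        exact self_mem_nhdsWithin
      · exact nhdsWithin_le_nhds (isOpen_ne.mem_nhds h)
    filter_upwards [e1, e2] with s hs1 hs2
    rw [hF s hs1 hs2, mul_div_cancel_left₀ _ (pow_ne_zero _ (sub_ne_zero.2 hs2))]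
  have hne : ∀ z : ℂ, 1 < z.re → z ≠ (1 : ℂ) := by
    rintro z hz rfl
    simp at hz
  refine ⟨⟨fun s hs => h3 s (by linarith), h3 1 (by simp only [Complex.one_re]; linarith), h2⟩, fun s hs => ?_⟩
  have h5 : AnalyticAt ℂ (fun z : ℂ => G z / (z - 1) ^ k) s :=
    (han s (by linarith)).div (by fun_prop) (pow_ne_zero _ (sub_ne_zero.2 (hne s hs)))
  refine h5.congr ?_
  filter_upwards [(isOpen_lt continuous_const Complex.continuous_re).mem_nhds hs] with z hz
  have hz' : 1 < z.re := hz
  rw [hF z (by linarith) (hne z hz'), mul_div_cancel_left₀ _ (pow_ne_zero _ (sub_ne_zero.2 (hne z hz')))]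

theorem order_nat {F : ℂ → ℂ} {s : ℂ} (h1 : AnalyticAt ℂ F s) {m : ℤ} (hm : meromorphicOrderAt F s = m) :
    0 ≤ m ∧ (m = 0 ↔ F s ≠ 0) := by
  have h2 := h1.meromorphicOrderAt_nonneg
  rw [hm] at h2
  refine ⟨by exact_mod_cast h2, ?_⟩
  rw [h1.meromorphicOrderAt_eq] at hm
  constructor
  · rintro rfl h3
    have h4 : analyticOrderAt F s ≠ 0 := by
      rw [h1.analyticOrderAt_ne_zero]
      exact h3
    cases hh : analyticOrderAt F s with
    | top => rw [hh] at hm; simp at hm
    | coe k =>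
      rw [hh] at hm h4
      have h5 : ((k : ℤ) : WithTop ℤ) = ((0 : ℤ) : WithTop ℤ) := hm
      have h6 : (k : ℤ) = 0 := by exact_mod_cast h5
      have h7 : k = 0 := by exact_mod_cast h6
      rw [h7] at h4
      exact h4 rfl
  · intro h3
    rw [h1.analyticOrderAt_eq_zero.2 h3] at hm
    have h5 : ((0 : ℤ) : WithTop ℤ) = (m : WithTop ℤ) := hm
    exact_mod_cast h5.symm

theorem li_log (a b : ∀ j, 𝓞 (K j)) (w : J → ℤ) (κ : ℝ) :
    LI fun y => Real.log (weighted a b w y) - κ * Real.log (Real.log y) := by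
  have h1 : LI fun y => ∑ j, (w j : ℝ) * Pv (NN (a j) (b j)) (alV (a j) (b j)) y :=
    Pool.Agent.Q18.W.li_sum fun j => (Pool.Agent.Q5.MS.bm_pv (curve_sys (a j) (b j))).li
  have h2 : LI fun y => (∑ j, (w j : ℝ) * Pv (NN (a j) (b j)) (alV (a j) (b j)) y) -
      (κ * Real.log (Real.log y) + 0) := fun Y hY => (h1 Y hY).sub (Pool.Agent.Q18.W.loglog_li κ 0 Y hY)
  have e : ∀ y, Real.log (weighted a b w y) = ∑ j, (w j : ℝ) * Pv (NN (a j) (b j)) (alV (a j) (b j)) y := by
    intro y
    unfold weighted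
    rw [Pool.Agent.Q18.W.log_weighted w (P := fun j => product (a j) (b j)) fun j x => prod_pos (a j) (b j) x]
    exact Finset.sum_congr rfl fun j _ => by rw [log_product]
  simpa only [e, add_zero] using h2

theorem li_one {K : Type} [Field K] [NumberField K] (a b : 𝓞 K) (κ : ℝ) :
    LI fun y => Real.log (product a b y) - κ * Real.log (Real.log y) := by
  have h1 := (Pool.Agent.Q5.MS.bm_pv (curve_sys a b)).li
  have h2 : LI fun y => Pv (NN a b) (alV a b) y - (κ * Real.log (Real.log y) + 0) := fun Y hY =>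
    (h1 Y hY).sub (Pool.Agent.Q18.W.loglog_li κ 0 Y hY)
  simpa only [log_product, add_zero] using h2

/-- the means over the windows are bounded if the means over `[e, Y]` are -/
theorem all_windows {K : Type} [Field K] [NumberField K] {a b : 𝓞 K} {ρ B δ : ℝ} (h0 : 0 < δ)
    (h1 : δ < 1) (h : ∀ᶠ Y : ℝ in atTop, ∫ y in Real.exp 1..Y,
      |Real.log (product a b y) - ρ * Real.log (Real.log y)| / y ≤ B * Real.log Y) :
    ∀ᶠ Y : ℝ in atTop, MeanBound δ (fun y => |Real.log (product a b y) - ρ * Real.log (Real.log y)|) B Y := by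
  have ht := (tendsto_rpow_atTop (show 0 < 1 - δ by linarith)).eventually_ge_atTop (Real.exp 1)
  filter_upwards [h, ht, eventually_ge_atTop 1] with Y hY hY2 hY1
  have hle : Y ^ (1 - δ) ≤ Y := by
    conv_rhs => rw [← Real.rpow_one Y]
    exact Real.rpow_le_rpow_of_exponent_le hY1 (by linarith)
  have l1 := (li_one a b ρ).abs.div
  have i1 := l1 (Y ^ (1 - δ)) hY2
  have i2 : IntervalIntegrable (fun y => |Real.log (product a b y) - ρ * Real.log (Real.log y)| / y) volume
    (Y ^ (1 - δ)) Y := i1.symm.trans (l1 Y (hY2.trans hle))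
  have e1 := intervalIntegral.integral_add_adjacent_intervals i1 i2
  have e2 : 0 ≤ ∫ y in Real.exp 1..Y ^ (1 - δ), |Real.log (product a b y) - ρ * Real.log (Real.log y)| / y := by
    refine intervalIntegral.integral_nonneg hY2 fun y hy => ?_
    have : 0 < y := (Real.exp_pos 1).trans_le hy.1
    positivity
  show ∫ y in Y ^ (1 - δ)..Y, |Real.log (product a b y) - ρ * Real.log (Real.log y)| / y ≤ B * Real.log Y
  linarith

/-- the converse -/
theorem converse (hΔ : ∀ j, 4 * a j ^ 3 + 27 * b j ^ 2 ≠ 0) (hT : ∀ j, Tempered (a j) (b j) (F j))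
    (hz : ∀ j, NoZeros (F j)) {m : J → ℤ} (hm : Orders F m) {δ : ℝ} (h0 : 0 < δ) (h1 : δ < 1) :
    ∃ B : ℝ, ∀ᶠ Y : ℝ in atTop, MeanBound δ (error a b w ((∑ j, w j * m j : ℤ) : ℝ)) B Y := by
  have h2 : ∀ j, ∃ B : ℝ, ∀ᶠ Y : ℝ in atTop,
      MeanBound δ (fun y => |Real.log (product (a j) (b j) y) - (m j : ℝ) * Real.log (Real.log y)|) B Y := by
    intro j
    have t := (Pool.Agent.Results.MP_ae0bd0_nt.MeanProduct.result (a j) (b j) (hΔ j) (F j) (hT j)).1 (m j : ℝ)
    have q : Pool.Agent.Results.MP_ae0bd0_nt.MeanProduct.OrderRH (F j) (m j : ℝ) ↔ ∃ B : ℝ, ∀ᶠ Y : ℝ in atTop,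
        ∫ y in Real.exp 1..Y, |Real.log (product (a j) (b j) y) - (m j : ℝ) * Real.log (Real.log y)| / y ≤
          B * Real.log Y := t.out 0 1
    obtain ⟨B, hB⟩ := q.1 ⟨⟨m j, rfl, hm j⟩, hz j⟩
    exact ⟨B, all_windows h0 h1 hB⟩
  choose B hB using h2
  refine ⟨∑ j, |(w j : ℝ)| * B j, ?_⟩
  have hall : ∀ᶠ Y : ℝ in atTop, ∀ j,
      MeanBound δ (fun y => |Real.log (product (a j) (b j) y) - (m j : ℝ) * Real.log (Real.log y)|) (B j) Y :=
    eventually_all.2 hB
  have hli : ∀ j, LI fun y => |Real.log (product (a j) (b j) y) - (m j : ℝ) * Real.log (Real.log y)| := fun j =>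
    (li_one (a j) (b j) (m j : ℝ)).abs
  have hcmp := Pool.Agent.Q18.W.win_mono (f := error a b w ((∑ j, w j * m j : ℤ) : ℝ))
    (g := fun y => ∑ j, |(w j : ℝ)| * |Real.log (product (a j) (b j) y) - (m j : ℝ) * Real.log (Real.log y)|)
    (li_log a b w _).abs (by
      intro Y hY
      have h1 := IntervalIntegrable.sum (Finset.univ : Finset J)
        (f := fun j y => |(w j : ℝ)| * |Real.log (product (a j) (b j) y) - (m j : ℝ) * Real.log (Real.log y)|)
        (fun j _ => (hli j Y hY).const_mul _)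
      refine h1.congr fun y _ => ?_
      simp) (fun y _ => by
      unfold error weighted
      rw [Pool.Agent.Q18.W.log_weighted w (P := fun j => product (a j) (b j)) fun j x => prod_pos (a j) (b j) x]
      have e : ∑ j, (w j : ℝ) * Real.log (product (a j) (b j) y) -
          ((∑ j, w j * m j : ℤ) : ℝ) * Real.log (Real.log y) =
          ∑ j, (w j : ℝ) * (Real.log (product (a j) (b j) y) - (m j : ℝ) * Real.log (Real.log y)) := by
        push_cast
        rw [Finset.sum_mul, ← Finset.sum_sub_distrib]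
        exact Finset.sum_congr rfl fun j _ => by ring
      rw [e]
      refine (Finset.abs_sum_le_sum_abs _ _).trans_eq ?_
      exact Finset.sum_congr rfl fun j _ => abs_mul _ _) h0 h1
  have ht := (tendsto_rpow_atTop (show 0 < 1 - δ by linarith)).eventually_ge_atTop (Real.exp 1)
  filter_upwards [hall, hcmp, ht, eventually_ge_atTop 1] with Y hY1 hY2 hY3 hY4
  refine hY2.trans ?_
  have hle : Y ^ (1 - δ) ≤ Y := by
    conv_rhs => rw [← Real.rpow_one Y]
    exact Real.rpow_le_rpow_of_exponent_le hY4 (by linarith)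
  have hi : ∀ j, IntervalIntegrable
      (fun y => |Real.log (product (a j) (b j) y) - (m j : ℝ) * Real.log (Real.log y)| / y) volume (Y ^ (1 - δ)) Y :=
    fun j => (((hli j).div _ hY3).symm).trans ((hli j).div Y (hY3.trans hle))
  have e1 : ∫ y in Y ^ (1 - δ)..Y,
      (∑ j, |(w j : ℝ)| * |Real.log (product (a j) (b j) y) - (m j : ℝ) * Real.log (Real.log y)|) / y =
      ∑ j, |(w j : ℝ)| * ∫ y in Y ^ (1 - δ)..Y,
        |Real.log (product (a j) (b j) y) - (m j : ℝ) * Real.log (Real.log y)| / y := by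
    rw [← Finset.sum_congr rfl fun j _ => intervalIntegral.integral_const_mul _ _,
      ← intervalIntegral.integral_finset_sum fun j _ => (hi j).const_mul _]
    refine intervalIntegral.integral_congr fun y _ => ?_
    show (∑ j, |(w j : ℝ)| * |Real.log (product (a j) (b j) y) - (m j : ℝ) * Real.log (Real.log y)|) / y =
      ∑ j, |(w j : ℝ)| * (|Real.log (product (a j) (b j) y) - (m j : ℝ) * Real.log (Real.log y)| / y)
    rw [Finset.sum_div]
    exact Finset.sum_congr rfl fun j _ => by ring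
  rw [e1, Finset.sum_mul]
  refine Finset.sum_le_sum fun j _ => ?_
  rw [mul_assoc]
  exact mul_le_mul_of_nonneg_left (hY1 j) (abs_nonneg _)

/-- **Comparison of ranks by means over one sequence of windows.** -/
theorem result (J : Type) [Fintype J] (K : J → Type) [∀ j, Field (K j)] [∀ j, NumberField (K j)]
    (a b : ∀ j, 𝓞 (K j)) (hΔ : ∀ j, 4 * a j ^ 3 + 27 * b j ^ 2 ≠ 0) (w : J → ℤ) (F : J → ℂ → ℂ)
    (δ : ℝ) (h0 : 0 < δ) (h1 : δ < 1) :
    -- (1)-(4): meromorphic continuations to `Re s > 1` and `s = 1`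
    ((∀ j, Continues (a j) (b j) (F j)) →
      (NoRealPoles (combined F w) → ∀ κ B : ℝ, (∃ᶠ Y : ℝ in atTop, MeanBound δ (excess a b w κ) B Y) →
        Free (combined F w) ∧ ∃ m : J → ℤ, Orders F m ∧ ((∑ j, w j * m j : ℤ) : ℝ) ≤ κ) ∧
      (∀ ρ B : ℝ, (∃ᶠ Y : ℝ in atTop, MeanBound δ (error a b w ρ) B Y) →
        Free (combined F w) ∧ ∃ m : J → ℤ, Orders F m ∧ ρ = ((∑ j, w j * m j : ℤ) : ℝ)) ∧
      (∀ ρ A : ℝ, 0 < A → (∀ ε : ℝ, 0 < ε → ∃ᶠ Y : ℝ in atTop, MeanBound δ (fun y => |ratio a b w A ρ y|) ε Y) →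
        Free (combined F w) ∧ ∃ m : J → ℤ, Orders F m ∧ ρ = ((∑ j, w j * m j : ℤ) : ℝ) ∧
          ∀ c : J → ℂ, Leading F m c → ∏ j, ‖c j‖ ^ w j = A) ∧
      (NoRealPoles (combined F w) → ∀ (m : J → ℤ) (c : J → ℂ), Orders F m → Leading F m c →
        ∀ A : ℝ, ∏ j, ‖c j‖ ^ w j < A → ∃ β : ℝ, 0 < β ∧ ∀ᶠ Y : ℝ in atTop,
          ¬ MeanBound δ (fun y => max (ratio a b w A ((∑ j, w j * m j : ℤ) : ℝ) y) 0) β Y)) ∧
    -- (5): the equivalences, for continuations of polynomial growth to larger half planes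
    ((∀ j, Tempered (a j) (b j) (F j)) →
      ((∀ j, 0 < w j) → ∀ κ : ℝ, List.TFAE [
        (∀ j, NoZeros (F j)) ∧ ∃ m : J → ℤ, Orders F m ∧ ((∑ j, w j * m j : ℤ) : ℝ) ≤ κ,
        ∃ B : ℝ, ∃ᶠ Y : ℝ in atTop, MeanBound δ (excess a b w κ) B Y,
        ∃ B : ℝ, ∀ᶠ Y : ℝ in atTop, MeanBound δ (excess a b w κ) B Y]) ∧
      ((∀ j, NoZeros (F j)) → ∀ κ : ℝ,
        List.TFAE [
          ∃ m : J → ℤ, Orders F m ∧ ((∑ j, w j * m j : ℤ) : ℝ) ≤ κ,
          ∃ B : ℝ, ∃ᶠ Y : ℝ in atTop, MeanBound δ (excess a b w κ) B Y,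
          ∃ B : ℝ, ∀ᶠ Y : ℝ in atTop, MeanBound δ (excess a b w κ) B Y] ∧
        List.TFAE [
          ∃ m : J → ℤ, Orders F m ∧ κ = ((∑ j, w j * m j : ℤ) : ℝ),
          ∃ B : ℝ, ∃ᶠ Y : ℝ in atTop, MeanBound δ (error a b w κ) B Y,
          ∃ B : ℝ, ∀ᶠ Y : ℝ in atTop, MeanBound δ (error a b w κ) B Y])) := by
  have hP : ∀ j x, 0 < product (a j) (b j) x := fun j x => prod_pos (a j) (b j) x
  have hlP : ∀ j x, Real.log (product (a j) (b j) x) = Pv (NN (a j) (b j)) (alV (a j) (b j)) x :=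
    fun j x => log_product (a j) (b j) x
  have hQ : ∀ j x, 0 < productStar (a j) (b j) x := fun j x => star_pos (a j) (b j) x
  have hlQ : ∀ j x, Real.log (productStar (a j) (b j) x) = -Pl (NN (a j) (b j)) (alV (a j) (b j)) x :=
    fun j x => log_star (a j) (b j) x
  have p1 : (∀ j, Continues (a j) (b j) (F j)) → NoRealPoles (combined F w) → ∀ κ B : ℝ,
      (∃ᶠ Y : ℝ in atTop, MeanBound δ (excess a b w κ) B Y) →
        Free (combined F w) ∧ ∃ m : J → ℤ, Orders F m ∧ ((∑ j, w j * m j : ℤ) : ℝ) ≤ κ := by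
    intro hF hr κ B h
    obtain ⟨f1, m, f2, f3⟩ := Pool.Agent.Q18.W.fam_one (fun j => data (hF j)) w hP hlP h0 h1 (real_of hr) h
    exact ⟨free_of f1, m, orders_of f2, f3⟩
  have p2 : (∀ j, Continues (a j) (b j) (F j)) → ∀ ρ B : ℝ,
      (∃ᶠ Y : ℝ in atTop, MeanBound δ (error a b w ρ) B Y) →
        Free (combined F w) ∧ ∃ m : J → ℤ, Orders F m ∧ ρ = ((∑ j, w j * m j : ℤ) : ℝ) := by
    intro hF ρ B h
    obtain ⟨f1, m, f2, f3⟩ := Pool.Agent.Q18.W.fam_two (fun j => data (hF j)) w hP hlP h0 h1 h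
    exact ⟨free_of f1, m, orders_of f2, f3⟩
  have hle : ∀ {r κ : ℝ}, r ≤ κ → (∃ B : ℝ, ∀ᶠ Y : ℝ in atTop, MeanBound δ (error a b w r) B Y) →
      ∃ B : ℝ, ∀ᶠ Y : ℝ in atTop, MeanBound δ (excess a b w κ) B Y := by
    rintro r κ hrκ ⟨B, hB⟩
    refine ⟨B, (hB.and (Pool.Agent.Q18.W.win_mono (Pool.Agent.Q18.W.LI.max0 (li_log a b w κ))
      (li_log a b w r).abs (fun y hy => ?_) h0 h1)).mono fun Y hY => hY.2.trans hY.1⟩
    have hy0 : 0 < y := (Real.exp_pos 1).trans_le hy
    have hl : 0 ≤ Real.log (Real.log y) := by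
      refine Real.log_nonneg ?_
      rwa [Real.le_log_iff_exp_le hy0]
    refine max_le (le_trans ?_ (le_abs_self _)) (abs_nonneg _)
    have : r * Real.log (Real.log y) ≤ κ * Real.log (Real.log y) := by gcongr
    linarith
  have hsh : ∀ {m : J → ℤ}, Orders F m → ∀ j, meromorphicOrderAt (fun s => F j (1 + s)) 0 = m j := by
    intro m hm j
    rw [ord_shift, add_zero]
    exact hm j
  refine ⟨fun hF => ⟨p1 hF, p2 hF, fun ρ A hA h => ?_, fun hr m c hm hc A hA => ?_⟩, fun hT => ?_⟩
  · obtain ⟨f1, m, f2, f3, f4⟩ := Pool.Agent.Q18.W.fam_lim (fun j => data (hF j)) w hQ hlQ h0 h1 hA h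
    exact ⟨free_of f1, m, orders_of f2, f3, fun c hc => f4 c fun j => coef_shift (hc j)⟩
  · obtain ⟨β, hβ, h⟩ := Pool.Agent.Q18.W.fam_omega (fun j => data (hF j)) w hQ hlQ h0 h1 (real_of hr) (hsh hm)
      (fun j => coef_shift (hc j)) hA
    exact ⟨β, hβ, h.mono fun Y hY => not_le.2 hY⟩
  · have hC : ∀ j, Continues (a j) (b j) (F j) := fun j => (of_tempered (hT j)).1
    have han : ∀ j, ∀ s : ℂ, 1 < s.re → AnalyticAt ℂ (F j) s := fun j => (of_tempered (hT j)).2
    -- the orders at the points to the right of `1`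
    have hord : ∀ s : ℂ, 1 < s.re → ∃ m : J → ℤ, (∀ j, meromorphicOrderAt (F j) s = m j) ∧
        meromorphicOrderAt (combined F w) s = ((∑ j, w j * m j : ℤ) : WithTop ℤ) := by
      intro s hs
      have g1 : ∀ j, ∃ m : ℤ, meromorphicOrderAt (F j) s = m := by
        intro j
        have := (Pool.Agent.Q18.W.dw_gd (data (hC j))).ord_ne_top' (s := s - 1)
          (by rw [Complex.sub_re, Complex.one_re]; linarith)
        rw [ord_shift, add_sub_cancel] at this
        obtain ⟨k, hk⟩ := WithTop.ne_top_iff_exists.1 this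
        exact ⟨k, hk.symm⟩
      choose m hm using g1
      exact ⟨m, hm, Pool.Agent.Q18.W.fam_ord (Ψ := F) (w := w) (fun j => (han j s hs).meromorphicAt) hm⟩
    have hm1 : ∃ m : J → ℤ, Orders F m := by
      have g1 : ∀ j, ∃ m : ℤ, meromorphicOrderAt (F j) 1 = m := by
        intro j
        have := (Pool.Agent.Q18.W.dw_gd (data (hC j))).ord_ne_top
        rw [ord_shift, add_zero] at this
        obtain ⟨k, hk⟩ := WithTop.ne_top_iff_exists.1 this
        exact ⟨k, hk.symm⟩
      choose m hm using g1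
      exact ⟨m, hm⟩
    refine ⟨fun hw κ => ?_, fun hz κ => ⟨?_, ?_⟩⟩
    · have hreal : NoRealPoles (combined F w) := by
        intro x hx
        obtain ⟨m, g1, g2⟩ := hord (x : ℂ) (by simpa using hx)
        rw [g2]
        have : 0 ≤ ∑ j, w j * m j := Finset.sum_nonneg fun j _ =>
          mul_nonneg (hw j).le (order_nat (han j (x : ℂ) (by simpa using hx)) (g1 j)).1
        exact_mod_cast this
      tfae_have 1 → 3 := by
        rintro ⟨h2, m, hm, h3⟩
        exact hle h3 (converse hΔ hT h2 hm h0 h1)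
      tfae_have 3 → 2 := fun ⟨B, hB⟩ => ⟨B, hB.frequently⟩
      tfae_have 2 → 1 := by
        rintro ⟨B, hB⟩
        obtain ⟨f1, m, f2, f3⟩ := p1 hC hreal κ B hB
        refine ⟨fun j s hs => ?_, m, f2, f3⟩
        obtain ⟨m', g1, g2⟩ := hord s hs
        have g3 := f1 s hs
        rw [g2] at g3
        have g4 : ∑ j, w j * m' j = 0 := by exact_mod_cast g3
        have g5 := (Finset.sum_eq_zero_iff_of_nonneg fun j _ =>
          mul_nonneg (hw j).le (order_nat (han j s hs) (g1 j)).1).1 g4 j (Finset.mem_univ j)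
        have g6 : m' j = 0 := by
          rcases mul_eq_zero.1 g5 with h | h
          · exact absurd h (hw j).ne'
          · exact h
        exact (order_nat (han j s hs) (g1 j)).2.1 g6
      tfae_finish
    all_goals
      have hreal : NoRealPoles (combined F w) := by
        intro x hx
        obtain ⟨m, g1, g2⟩ := hord (x : ℂ) (by simpa using hx)
        rw [g2]
        have : ∑ j, w j * m j = 0 := Finset.sum_eq_zero fun j _ => by
          rw [(order_nat (han j (x : ℂ) (by simpa using hx)) (g1 j)).2.2 (hz j _ (by simpa using hx)), mul_zero]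
        rw [this]
        exact le_rfl
    · tfae_have 1 → 3 := by
        rintro ⟨m, hm, h3⟩
        exact hle h3 (converse hΔ hT hz hm h0 h1)
      tfae_have 3 → 2 := fun ⟨B, hB⟩ => ⟨B, hB.frequently⟩
      tfae_have 2 → 1 := by
        rintro ⟨B, hB⟩
        exact (p1 hC hreal κ B hB).2
      tfae_finish
    · tfae_have 1 → 3 := by
        rintro ⟨m, hm, h3⟩
        rw [h3]
        exact converse hΔ hT hz hm h0 h1
      tfae_have 3 → 2 := fun ⟨B, hB⟩ => ⟨B, hB.frequently⟩
      tfae_have 2 → 1 := by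
        rintro ⟨B, hB⟩
        exact (p2 hC κ B hB).2
      tfae_finish

end Pool.Agent.Results.MP_32c55d_nt.WeightedFamilies
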