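import Pool.Agent.Q18.W.Mean5
import Pool.Agent.Results.MP_ec4e4b_nt.MeanProductOrder

/-!
# The order of `L(H^{2i+1}(X), s)` at `s = i + 1` and one-sided means over one sequence of windows

Let `X` be a smooth projective variety of dimension `d` over a number field `K` (in the conjecture of the problem
`d = 2i + 1`), given by homogeneous polynomials over `𝓞 K`, let `m = i + 1 ≥ 1`, `2 m - 1 ≤ 2 d`, and let `α_{v,j}`,
`v ∉ S`, be the eigenvalues of the Frobenius on `H^{2m-1}(X)`, given by the numbers of points of `X` over finite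
fields. Let

`P(x) = ∏_{v ∉ S, q_v ≤ x} |∏_j (1 - α_{v,j} q_v^{-m})|`,
`P*(x) = exp (- ∑_{v ∉ S, q_v^k ≤ x} tr (Frob_v^k | H^{2m-1}(X)) / (k q_v^{mk}))`

be the partial Euler products at the centre with the sharp cut-off. Fix `0 < δ < 1`. A condition is said to hold
`for arbitrarily large Y` if it holds for an unbounded set of `Y`; the set may be as sparse as we like, and the
conditions below contain only the values of `P` and `P*` in the windows `[Y^(1-δ), Y]` of these `Y`.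

Assume only that the incomplete `L`-function has a continuation `F` which is meromorphic at every point with
`Re s > m` and at `s = m`.

1. If `F` has no real poles `> m` and `∫_{Y^(1-δ)}^Y max (log P(y) - κ log log y, 0) dy/y ≤ B log Y` for arbitrarily
   large `Y`, then `F` has no zeros and no poles with `Re s > m`, and `ord_{s=m} F ≤ κ`.
2. If `∫_{Y^(1-δ)}^Y |log P(y) - ρ log log y| dy/y ≤ B log Y` for arbitrarily large `Y`, then `F` has no zeros and no
   poles with `Re s > m`, and `ord_{s=m} F = ρ` (real zeros and poles need not be excluded).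
3. If `(log Y)⁻¹ ∫_{Y^(1-δ)}^Y |log (A P*(y) / (e^γ log y)^ρ)| dy/y → 0` along a sequence of `Y → ∞`, then moreover
   `A = |c|`, where `c` is the leading coefficient of `F` at `s = m`.
4. (Equivalences.) If `F` has a continuation to `Re s > m - η` of polynomial growth, analytic except perhaps for a
   pole at `m`, then for every `κ` the following are EQUIVALENT: (a) `F` has no zeros with `Re s > m` and
   `ord_{s=m} F ≤ κ`; (b) the one-sided bound of 1 for some `B` and arbitrarily large `Y`; (c) the one-sided bound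
   of 1 for some `B` and ALL large `Y`. Likewise `no zeros, ord = ρ` is equivalent to the bound of 2 for arbitrarily
   large `Y` and to the bound of 2 for all large `Y`. So one sparse sequence of windows and one-sided means already
   contain the Riemann hypothesis for `H^{2m-1}(X)` and the inequality `ord ≤ κ`, for instance with
   `κ = dim CH^{i+1}(X)_0 ⊗ ℚ` the half `ord ≤ dim` of the conjecture, with `ρ` the conjecture.
5. (Nothing assumed on the product.) If `F` has no real poles `> m` and `A > |c|`, there is a `β > 0` such that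
   `∫_{Y^(1-δ)}^Y max (log (A P*(y) / (e^γ log y)^ρ), 0) dy/y > β log Y` for ALL large `Y`, `ρ = ord_{s=m} F`: in every
   window `P*(y)` exceeds `(e^γ log y)^ρ / A` in the mean.

Compared with `MP_ec4e4b_nt.MeanProductOrder` (two-sided means over `[e, Y]`, all large `Y`, continuation to
`Re s > m - η` of polynomial growth): one-sided, one sequence of windows, meromorphy only in 1-3 and 5.

The proof (`Pool.Agent.Q18.W`): averages over `k` in an interval of length proportional to `log Y` of the means of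
`log P*` with the weights `u^k e^{-σu}`, `σ` fixed; these means are given by the Taylor coefficients of `log F` at
`m + σ`.
-/

set_option autoImplicit false

namespace Pool.Agent.Results.MP_6dc9d1_nt.MeanOnWindows

open Filter Topology Set Complex NumberField IsDedekindDomain MeasureTheory
open Pool.Agent.Results.MP_ec4e4b_nt.MeanProductOrder (cone IsFrobenius norm IsLocal upTo
  product productStar Tempered)

variable {K : Type} [Field K] [NumberField K] {N : ℕ}

/-- `F` is a continuation of the incomplete `L`-function `∏_{v ∉ S} ∏_j (1 - α_{v,j} q_v^{-s})⁻¹`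
(`Re s > m + 1/2`), meromorphic at every point with `Re s > m` and at `m`. -/
def Continues (m : ℕ) (S : Finset (HeightOneSpectrum (𝓞 K)))
    (α : HeightOneSpectrum (𝓞 K) → Fin N → ℂ) (F : ℂ → ℂ) : Prop :=
  (∀ s : ℂ, (m : ℝ) < s.re → MeromorphicAt F s) ∧ MeromorphicAt F m ∧
  ∀ s : ℂ, (m : ℝ) + 1 / 2 < s.re →
    HasProd (fun v : {v : HeightOneSpectrum (𝓞 K) // v ∉ S} =>
      (∏ j, (1 - α v.1 j * (norm v.1 : ℂ) ^ (-s)))⁻¹) (F s)

/-- `F` has no zeros and no poles with `Re s > m`. -/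
def Free (m : ℕ) (F : ℂ → ℂ) : Prop := ∀ s : ℂ, (m : ℝ) < s.re → meromorphicOrderAt F s = 0

/-- `F` has no real poles `x > m`. -/
def NoRealPoles (m : ℕ) (F : ℂ → ℂ) : Prop := ∀ x : ℝ, (m : ℝ) < x → 0 ≤ meromorphicOrderAt F (x : ℂ)

/-- `c` is the coefficient of `(s - m)^e` in the expansion of `F` at `m`, where `e` is the order. -/
def IsLeading (m : ℕ) (F : ℂ → ℂ) (e : ℤ) (c : ℂ) : Prop :=
  meromorphicOrderAt F m = e ∧ Tendsto (fun s : ℂ => F s / (s - m) ^ e) (𝓝[≠] (m : ℂ)) (𝓝 c)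

/-- `∫_{Y^(1-δ)}^Y G(y) dy/y ≤ B log Y`. -/
def MeanBound (δ : ℝ) (G : ℝ → ℝ) (B Y : ℝ) : Prop := ∫ y in Y ^ (1 - δ)..Y, G y / y ≤ B * Real.log Y

/-- the positive part of `log P(y) - κ log log y` -/
noncomputable def excess (m : ℕ) (S : Finset (HeightOneSpectrum (𝓞 K)))
    (α : HeightOneSpectrum (𝓞 K) → Fin N → ℂ) (κ y : ℝ) : ℝ :=
  max (Real.log (product m S α y) - κ * Real.log (Real.log y)) 0

/-- `|log P(y) - ρ log log y|` -/
noncomputable def error (m : ℕ) (S : Finset (HeightOneSpectrum (𝓞 K)))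
    (α : HeightOneSpectrum (𝓞 K) → Fin N → ℂ) (ρ y : ℝ) : ℝ :=
  |Real.log (product m S α y) - ρ * Real.log (Real.log y)|

/-- `log (A P*(y) / (e^γ log y)^ρ)` -/
noncomputable def ratio (m : ℕ) (S : Finset (HeightOneSpectrum (𝓞 K)))
    (α : HeightOneSpectrum (𝓞 K) → Fin N → ℂ) (A ρ y : ℝ) : ℝ :=
  Real.log (A * productStar m S α y / (Real.exp Real.eulerMascheroniConstant * Real.log y) ^ ρ)

/-! ### translation -/

open Pool.Agent.Results.MP_ec4e4b_nt.MeanProductOrder (centre frob cpow_m log_product log_star star_pos)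
open Pool.Agent.TH942.ES (zv xv Sys)
open Pool.Agent.TH270.MS (Pl LI BM)
open Pool.Agent.Q5.MS (Pv)
open Pool.Agent.Q5.VA (NS aD)
open Pool.Agent.Q18.W (Win Dw Wm)

variable {n : ℕ} {X : Set (MvPolynomial (Fin n) (𝓞 K))} {d m : ℕ}
  {S : Finset (HeightOneSpectrum (𝓞 K))} {α : HeightOneSpectrum (𝓞 K) → Fin N → ℂ} {F : ℂ → ℂ}

theorem data (hm : 1 ≤ m) (hd : 2 * m - 1 ≤ 2 * d) (hα : IsLocal X d (2 * m - 1) S α)
    (hF : Continues m S α F) : Dw (NS S) (aD (2 * m - 1) S α) (fun s => F (((m : ℝ) : ℂ) + s)) := by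
  have hmc : ((m : ℝ) : ℂ) = (m : ℂ) := by push_cast; rfl
  obtain ⟨h1, h2, h3⟩ := hF
  refine Pool.Agent.Q18.W.dw_of ((frob hα).sys hd) ((frob hα).real hd) h1 (by rw [hmc]; exact h2) fun s hs => ?_
  refine (h3 s hs).congr_fun fun v => ?_
  have h4 := Q5.VA.factorD (i := 2 * m - 1) (S := S) (α := α) v s
  rw [← centre hm, hmc] at h4
  rw [hmc]
  exact h4

/-- the local form of a continuation of polynomial growth -/
theorem near {η : ℝ} {k : ℕ} {G : ℂ → ℂ} (hG : ∀ s : ℂ, m - η < s.re → DifferentiableAt ℂ G s)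
    (hF : ∀ s : ℂ, m - η < s.re → s ≠ m → G s = (s - m) ^ k * F s) {z : ℂ} (hz : m - η < z.re) :
    AnalyticAt ℂ G z ∧ F =ᶠ[𝓝[≠] z] fun s => G s / (s - m) ^ k := by
  have ho : IsOpen {s : ℂ | (m : ℝ) - η < s.re} := isOpen_lt continuous_const Complex.continuous_re
  have hd : DifferentiableOn ℂ G {s : ℂ | (m : ℝ) - η < s.re} := fun s hs => (hG s hs).differentiableWithinAt
  refine ⟨hd.analyticAt (ho.mem_nhds hz), ?_⟩
  have e1 : ∀ᶠ s in 𝓝[≠] z, (m : ℝ) - η < s.re := nhdsWithin_le_nhds (ho.mem_nhds hz)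
  have e2 : ∀ᶠ s in 𝓝[≠] z, s ≠ (m : ℂ) := by
    by_cases h : z = m
    · rw [h]
      exact self_mem_nhdsWithin
    · exact nhdsWithin_le_nhds (isOpen_ne.mem_nhds h)
  filter_upwards [e1, e2] with s hs1 hs2
  rw [hF s hs1 hs2, mul_div_cancel_left₀ _ (pow_ne_zero _ (sub_ne_zero.2 hs2))]

theorem of_tempered (h : Tempered m S α F) : Continues m S α F ∧
    (∀ s : ℂ, (m : ℝ) < s.re → AnalyticAt ℂ F s) := by
  obtain ⟨⟨η, C, k, κ, G, hη, hG, hF⟩, h2⟩ := h
  have h3 : ∀ z : ℂ, (m : ℝ) - η < z.re → MeromorphicAt F z := by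
    intro z hz
    obtain ⟨g1, g2⟩ := near (fun s hs => (hG s hs).1) hF hz
    refine MeromorphicAt.congr ?_ g2.symm
    have h5 : MeromorphicAt (fun s : ℂ => (s - m) ^ k) z := by fun_prop
    exact g1.meromorphicAt.div h5
  refine ⟨⟨fun s hs => h3 s (by linarith), h3 m (by simp only [Complex.natCast_re]; linarith), h2⟩, fun s hs => ?_⟩
  have hd : ∀ᶠ z in 𝓝 s, (m : ℝ) < z.re :=
    (isOpen_lt continuous_const Complex.continuous_re).mem_nhds hs
  obtain ⟨g1, -⟩ := near (fun s hs => (hG s hs).1) hF (z := s) (by linarith)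
  have hne : ∀ z : ℂ, (m : ℝ) < z.re → z ≠ (m : ℂ) := by
    rintro z hz rfl
    simp at hz
  have h5 : AnalyticAt ℂ (fun z : ℂ => G z / (z - m) ^ k) s := by
    refine g1.div (by fun_prop) (pow_ne_zero _ (sub_ne_zero.2 (hne s hs)))
  refine h5.congr ?_
  filter_upwards [hd] with z hz
  rw [hF z (by linarith) (hne z hz), mul_div_cancel_left₀ _ (pow_ne_zero _ (sub_ne_zero.2 (hne z hz)))]

theorem free_iff (h : ∀ s : ℂ, (m : ℝ) < s.re → AnalyticAt ℂ F s) :
    Free m F ↔ ∀ s : ℂ, (m : ℝ) < s.re → F s ≠ 0 := by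
  refine forall_congr' fun s => imp_congr_right fun hs => ?_
  have h1 := h s hs
  rw [h1.meromorphicOrderAt_eq]
  constructor
  · intro h2 h3
    have h4 : analyticOrderAt F s ≠ 0 := by
      rw [h1.analyticOrderAt_ne_zero]
      exact h3
    cases hh : analyticOrderAt F s with
    | top => rw [hh] at h2; simp at h2
    | coe k =>
      rw [hh] at h2 h4
      have h5 : ((k : ℤ) : WithTop ℤ) = 0 := h2
      have h6 : (k : ℤ) = 0 := by exact_mod_cast h5
      have h7 : k = 0 := by exact_mod_cast h6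
      rw [h7] at h4
      exact h4 rfl
  · intro h2
    rw [h1.analyticOrderAt_eq_zero.2 h2]
    rfl

theorem li_log (hm : 1 ≤ m) (hd : 2 * m - 1 ≤ 2 * d) (hα : IsLocal X d (2 * m - 1) S α) (κ : ℝ) :
    LI fun y => Real.log (product m S α y) - κ * Real.log (Real.log y) := by
  have h1 := (Pool.Agent.Q5.MS.bm_pv ((frob hα).sys hd)).li
  have h2 : LI fun y => Pv (NS S) (aD (2 * m - 1) S α) y - (κ * Real.log (Real.log y) + 0) := fun Y hY =>
    (h1 Y hY).sub (Pool.Agent.Q18.W.loglog_li κ 0 Y hY)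
  simpa only [log_product hm hd hα, add_zero] using h2

/-- the means over the windows are bounded if the means over `[e, Y]` are -/
theorem all_windows (hm : 1 ≤ m) (hd : 2 * m - 1 ≤ 2 * d) (hα : IsLocal X d (2 * m - 1) S α) {ρ B δ : ℝ} (h0 : 0 < δ)
    (h1 : δ < 1) (h : ∀ᶠ Y : ℝ in atTop, ∫ y in Real.exp 1..Y,
      |Real.log (product m S α y) - ρ * Real.log (Real.log y)| / y ≤ B * Real.log Y) :
    ∀ᶠ Y : ℝ in atTop, MeanBound δ (error m S α ρ) B Y := by
  have ht := (tendsto_rpow_atTop (show 0 < 1 - δ by linarith)).eventually_ge_atTop (Real.exp 1)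
  filter_upwards [h, ht, eventually_ge_atTop 1] with Y hY hY2 hY1
  have hle : Y ^ (1 - δ) ≤ Y := by
    conv_rhs => rw [← Real.rpow_one Y]
    exact Real.rpow_le_rpow_of_exponent_le hY1 (by linarith)
  have l1 := (li_log hm hd hα ρ).abs.div
  have i1 := l1 (Y ^ (1 - δ)) hY2
  have i2 : IntervalIntegrable (fun y => |Real.log (product m S α y) - ρ * Real.log (Real.log y)| / y) volume
    (Y ^ (1 - δ)) Y := i1.symm.trans (l1 Y (hY2.trans hle))
  have e1 := intervalIntegral.integral_add_adjacent_intervals i1 i2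
  have e2 : 0 ≤ ∫ y in Real.exp 1..Y ^ (1 - δ), |Real.log (product m S α y) - ρ * Real.log (Real.log y)| / y := by
    refine intervalIntegral.integral_nonneg hY2 fun y hy => ?_
    have : 0 < y := (Real.exp_pos 1).trans_le hy.1
    positivity
  show ∫ y in Y ^ (1 - δ)..Y, |Real.log (product m S α y) - ρ * Real.log (Real.log y)| / y ≤ B * Real.log Y
  linarith

/-- **The order at the centre and means over one sequence of windows.** -/
theorem result (K : Type) [Field K] [NumberField K] (n : ℕ)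
    (X : Set (MvPolynomial (Fin n) (𝓞 K))) (d m N : ℕ) (hm : 1 ≤ m) (hd : 2 * m - 1 ≤ 2 * d)
    (S : Finset (HeightOneSpectrum (𝓞 K))) (α : HeightOneSpectrum (𝓞 K) → Fin N → ℂ)
    (hα : IsLocal X d (2 * m - 1) S α) (F : ℂ → ℂ) (δ : ℝ) (h0 : 0 < δ) (h1 : δ < 1) :
    -- the meromorphic continuation to `Re s > m` and `s = m` is assumed in (1), (2), (3), (5)
    (Continues m S α F →
      (NoRealPoles m F → ∀ κ B : ℝ, (∃ᶠ Y : ℝ in atTop, MeanBound δ (excess m S α κ) B Y) →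
        Free m F ∧ ∃ e : ℤ, meromorphicOrderAt F m = e ∧ (e : ℝ) ≤ κ) ∧
      (∀ ρ B : ℝ, (∃ᶠ Y : ℝ in atTop, MeanBound δ (error m S α ρ) B Y) →
        Free m F ∧ ∃ e : ℤ, ρ = e ∧ meromorphicOrderAt F m = e) ∧
      (∀ ρ A : ℝ, 0 < A → (∀ ε : ℝ, 0 < ε → ∃ᶠ Y : ℝ in atTop, MeanBound δ (fun y => |ratio m S α A ρ y|) ε Y) →
        Free m F ∧ ∃ e : ℤ, ρ = e ∧ meromorphicOrderAt F m = e ∧ ∀ c : ℂ, IsLeading m F e c → ‖c‖ = A) ∧
      (NoRealPoles m F → ∀ (e : ℤ) (c : ℂ), IsLeading m F e c → ∀ A : ℝ, ‖c‖ < A → ∃ β : ℝ, 0 < β ∧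
        ∀ᶠ Y : ℝ in atTop, ¬ MeanBound δ (fun y => max (ratio m S α A e y) 0) β Y)) ∧
    -- (4): the equivalences, for a continuation of polynomial growth to a larger half plane
    (Tempered m S α F →
      (∀ κ : ℝ, List.TFAE [
        (∀ s : ℂ, (m : ℝ) < s.re → F s ≠ 0) ∧ ∃ e : ℤ, meromorphicOrderAt F m = e ∧ (e : ℝ) ≤ κ,
        ∃ B : ℝ, ∃ᶠ Y : ℝ in atTop, MeanBound δ (excess m S α κ) B Y,
        ∃ B : ℝ, ∀ᶠ Y : ℝ in atTop, MeanBound δ (excess m S α κ) B Y]) ∧
      (∀ ρ : ℝ, List.TFAE [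
        (∀ s : ℂ, (m : ℝ) < s.re → F s ≠ 0) ∧ ∃ e : ℤ, ρ = e ∧ meromorphicOrderAt F m = e,
        ∃ B : ℝ, ∃ᶠ Y : ℝ in atTop, MeanBound δ (error m S α ρ) B Y,
        ∃ B : ℝ, ∀ᶠ Y : ℝ in atTop, MeanBound δ (error m S α ρ) B Y])) := by
  have hmc : ((m : ℝ) : ℂ) = (m : ℂ) := by push_cast; rfl
  have hlP := log_product hm hd hα
  have hQ : ∀ x : ℝ, 0 < productStar m S α x := fun x => star_pos x
  have hlQ : ∀ x : ℝ, Real.log (productStar m S α x) = -Pl (NS S) (aD (2 * m - 1) S α) x := fun x => log_star hm x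
  have p1 : ∀ {F : ℂ → ℂ}, Continues m S α F → NoRealPoles m F → ∀ κ B : ℝ,
      (∃ᶠ Y : ℝ in atTop, MeanBound δ (excess m S α κ) B Y) →
        Free m F ∧ ∃ e : ℤ, meromorphicOrderAt F m = e ∧ (e : ℝ) ≤ κ := by
    intro F hF hr κ B h
    obtain ⟨f1, e, f2, f3⟩ := Pool.Agent.Q18.W.mean_one (data hm hd hα hF) hlP h0 h1 hr h
    rw [hmc] at f2
    exact ⟨f1, e, f2, f3⟩
  have p2 : ∀ {F : ℂ → ℂ}, Continues m S α F → ∀ ρ B : ℝ,
      (∃ᶠ Y : ℝ in atTop, MeanBound δ (error m S α ρ) B Y) →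
        Free m F ∧ ∃ e : ℤ, ρ = e ∧ meromorphicOrderAt F m = e := by
    intro F hF ρ B h
    obtain ⟨f1, e, f2, f3⟩ := Pool.Agent.Q18.W.mean_two (data hm hd hα hF) hlP h0 h1 h
    rw [hmc] at f3
    exact ⟨f1, e, f2, f3⟩
  refine ⟨fun hF => ⟨fun hr κ B h => p1 hF hr κ B h, fun ρ B h => p2 hF ρ B h, fun ρ A hA h => ?_,
    fun hr e c hc A hA => ?_⟩, fun hT => ?_⟩
  · obtain ⟨f1, e, f2, f3, f4⟩ := Pool.Agent.Q18.W.mean_lim (data hm hd hα hF) hQ hlQ h0 h1 hA h
    rw [hmc] at f3 f4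
    exact ⟨f1, e, f2, f3, fun c hc => f4 c hc.2⟩
  · obtain ⟨β, hβ, h⟩ := Pool.Agent.Q18.W.mean_omega (data hm hd hα hF) hQ hlQ h0 h1 hr (m := e) (a := c)
      (by rw [hmc]; exact hc.1) (by rw [hmc]; exact hc.2) hA
    exact ⟨β, hβ, h.mono fun Y hY => not_le.2 hY⟩
  · obtain ⟨hC, han⟩ := of_tempered hT
    have hfree := free_iff han
    have hreal : NoRealPoles m F := fun x hx =>
      (han x (by rw [Complex.ofReal_re]; exact hx)).meromorphicOrderAt_nonneg
    have h4 : ∀ ρ : ℝ, ((∀ s : ℂ, (m : ℝ) < s.re → F s ≠ 0) ∧ ∃ e : ℤ, ρ = e ∧ meromorphicOrderAt F m = e) →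
        ∃ B : ℝ, ∀ᶠ Y : ℝ in atTop, MeanBound δ (error m S α ρ) B Y := by
      rintro ρ ⟨h2, h3⟩
      have q : Pool.Agent.Results.MP_ec4e4b_nt.MeanProductOrder.OrderRH m F ρ ↔ ∃ B : ℝ, ∀ᶠ Y : ℝ in atTop,
          ∫ y in Real.exp 1..Y, |Real.log (product m S α y) - ρ * Real.log (Real.log y)| / y ≤ B * Real.log Y :=
        (Pool.Agent.Results.MP_ec4e4b_nt.MeanProductOrder.result K n X d m N hm hd S α hα F hT ρ).out 0 1
      obtain ⟨B, hB⟩ := q.1 ⟨h3, h2⟩
      exact ⟨B, all_windows hm hd hα h0 h1 hB⟩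
    refine ⟨fun κ => ?_, fun ρ => ?_⟩
    · tfae_have 1 → 3 := by
        rintro ⟨h2, e, h3, h5⟩
        obtain ⟨B, hB⟩ := h4 e ⟨h2, e, rfl, h3⟩
        refine ⟨B, (hB.and (Pool.Agent.Q18.W.win_mono (Pool.Agent.Q18.W.LI.max0 (li_log hm hd hα κ))
          (li_log hm hd hα (e : ℝ)).abs (fun y hy => ?_) h0 h1)).mono fun Y hY => hY.2.trans hY.1⟩
        have hy0 : 0 < y := (Real.exp_pos 1).trans_le hy
        have hl : 0 ≤ Real.log (Real.log y) := by
          refine Real.log_nonneg ?_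
          rwa [Real.le_log_iff_exp_le hy0]
        refine max_le (le_trans ?_ (le_abs_self _)) (abs_nonneg _)
        have : (e : ℝ) * Real.log (Real.log y) ≤ κ * Real.log (Real.log y) := by gcongr
        linarith
      tfae_have 3 → 2 := fun ⟨B, hB⟩ => ⟨B, hB.frequently⟩
      tfae_have 2 → 1 := by
        rintro ⟨B, hB⟩
        obtain ⟨f1, f2⟩ := p1 hC hreal κ B hB
        exact ⟨hfree.1 f1, f2⟩
      tfae_finish
    · tfae_have 1 → 3 := h4 ρ
      tfae_have 3 → 2 := fun ⟨B, hB⟩ => ⟨B, hB.frequently⟩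
      tfae_have 2 → 1 := by
        rintro ⟨B, hB⟩
        obtain ⟨f1, f2⟩ := p2 hC ρ B hB
        exact ⟨hfree.1 f1, f2⟩
      tfae_finish

end Pool.Agent.Results.MP_6dc9d1_nt.MeanOnWindows
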