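import Mathlib
import Pool.Agent.Q18.P.Laws

/-!
# Conjugate-self-dual `π` on `GL_n`: the central order and Euler products on one sequence of windows

`π` is a regular algebraic cuspidal automorphic representation of `GL_n` over an imaginary quadratic field `K` with
`π^∨ ≅ π^c |·|^{-1}` as in the problem, `S` a finite set of finite places containing those where `π` is ramified, and
`α_{v,j}`, `1 ≤ j ≤ n`, `v ∉ S`, the Satake parameters of the unitary twist `π |·|^{-1/2}`. It is known that they have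
the absolute value `1` (Shin, Clozel, Caraiani; Chenevier-Harris), and that
`F(s) = L^S(s - 1/2, π) = ∏_{v ∉ S} ∏_j (1 - α_{v,j} q_v^{-s})⁻¹` (`Re s > 1`) is entire and of polynomial growth in
vertical strips, with `ord_{s=1/2} F = ord_{s=0} L(s, π)`, a number of the parity of `(1 - ε(π))/2`. The centre of `F` is
`s = 1/2`. The theorem below holds for all number fields `K` and all data with these properties. Let

`P(y) = ∏_{v ∉ S, q_v ≤ y} |∏_j (1 - α_{v,j} q_v^{-1/2})|`,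
`P*(y) = exp (- ∑_{v ∉ S, q_v^k ≤ y} Re (∑_j α_{v,j}^k) / (k q_v^{k/2}))`.

Fix `0 < δ < 1`; the windows are the intervals `[Y^(1-δ), Y]`. We prove the equivalence of (a), (b) and (c) in each of
the following cases; (b) holds for arbitrarily large `Y`, i.e. on one sequence of windows, which may be as sparse as we
like; (c) for all large `Y`. The Riemann hypothesis for `π` is the statement `F(s) ≠ 0` for `Re s > 1/2`.

1. (a) the Riemann hypothesis for `π` and `ord_{s=0} L(s, π) ≤ κ`;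
   (b), (c) `∫ max (log P - κ log log y, 0) dy/y ≤ B log Y` over the window, for some `B`.
2. (a) the Riemann hypothesis and `ord = m`; (b), (c) `∫ |log P - m log log y| dy/y ≤ B log Y` for some `B`.
3. (a) the Riemann hypothesis, `ord = m`, and the leading coefficient of `F` at `1/2` has the absolute value `A > 0`;
   (b), (c) `∫ |log (A P*(y) / (e^γ log y)^m)| dy/y ≤ ε log Y` for every `ε > 0`.
4. Let `w ∈ {0, 1}`, `ε(π) = (-1)^w`. The Riemann hypothesis for `π` and `ord_{s=0} L(s, π) = w` hold together if and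
   only if the one-sided bounds of 1. hold for ONE exponent `κ` with `w ≤ κ < w + 2`. More generally, if `r = dim H¹_f` has
   the parity of the order (the sign conjecture), the Riemann hypothesis and `ord ≤ r` are equivalent to the bounds of
   1. for one `κ` with `r ≤ κ < r + 2`.
5. If `ord = m`, with the leading coefficient `a`, and `A > |a|`, then there is a `β > 0` with
   `∫ max (log (A P*(y) / (e^γ log y)^m), 0) dy/y > β log Y` over ALL windows with large `Y`.

The coefficients are complex: the proof applies the laws for real coefficients to `F(s) conj F(conj s)`.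
-/

set_option autoImplicit false

namespace Pool.Agent.Results.MP_7c08ba_nt.ConjugateSelfDualWindows

open Filter Topology Set Complex NumberField IsDedekindDomain MeasureTheory ComplexConjugate
open Pool.Agent.Q18.P (norm Holo NoZeros Order IsLeading MeanBound excess error ratio upTo)

variable {K : Type} [Field K] [NumberField K] {n : ℕ}

/-- `α` are the Satake parameters, of absolute value `1`, and `F` is holomorphic, of polynomial growth in a half plane
`Re s > 1/2 - η`, and equal to the Euler product over the places outside of `S` for `Re s > 1`. -/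
structure IsL (S : Finset (HeightOneSpectrum (𝓞 K))) (α : HeightOneSpectrum (𝓞 K) → Fin n → ℂ) (F : ℂ → ℂ) :
    Prop where
  abs : ∀ v, v ∉ S → ∀ j, ‖α v j‖ = 1
  holo : Holo (1 / 2) F
  euler : ∀ s : ℂ, 1 < s.re →
    HasProd (fun v : {v : HeightOneSpectrum (𝓞 K) // v ∉ S} => (∏ j, (1 - α v.1 j * (norm v.1 : ℂ) ^ (-s)))⁻¹) (F s)

/-- `P(y) = ∏_{v ∉ S, q_v ≤ y} |∏_j (1 - α_{v,j} q_v^{-1/2})|` -/
noncomputable def product (S : Finset (HeightOneSpectrum (𝓞 K))) (α : HeightOneSpectrum (𝓞 K) → Fin n → ℂ)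
    (y : ℝ) : ℝ :=
  ∏ᶠ v ∈ upTo S y, ‖∏ j, (1 - α v j * (norm v : ℂ) ^ (-(((1 / 2 : ℝ)) : ℂ)))‖

/-- `P*(y) = exp (- ∑_{v ∉ S, q_v^k ≤ y} Re (∑_j α_{v,j}^k) / (k q_v^{k/2}))`, `k = p.2 + 1` -/
noncomputable def productStar (S : Finset (HeightOneSpectrum (𝓞 K))) (α : HeightOneSpectrum (𝓞 K) → Fin n → ℂ)
    (y : ℝ) : ℝ :=
  Real.exp (-∑ᶠ (p : {v : HeightOneSpectrum (𝓞 K) // v ∉ S} × ℕ) (_ : (norm p.1.1 : ℝ) ^ (p.2 + 1) ≤ y),
    (∑ j, α p.1.1 j ^ (p.2 + 1)).re / (((p.2 : ℝ) + 1) * ((norm p.1.1 : ℝ) ^ (1 / 2 : ℝ)) ^ (p.2 + 1)))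

/-- **Conjugate-self-dual `π`: the central order, the leading coefficient and the Riemann hypothesis from Euler products on
one sequence of windows.** -/
theorem result (K : Type) [Field K] [NumberField K] (n : ℕ) (S : Finset (HeightOneSpectrum (𝓞 K)))
    (α : HeightOneSpectrum (𝓞 K) → Fin n → ℂ) (F : ℂ → ℂ) (hF : IsL S α F) (δ : ℝ) (h0 : 0 < δ) (h1 : δ < 1) :
    -- (1) upper bounds for the order
    (∀ κ : ℝ, List.TFAE [
      NoZeros (1 / 2) F ∧ ∃ m : ℤ, Order (1 / 2) F m ∧ (m : ℝ) ≤ κ,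
      ∃ B : ℝ, ∃ᶠ Y : ℝ in atTop, MeanBound δ (excess (product S α) κ) B Y,
      ∃ B : ℝ, ∀ᶠ Y : ℝ in atTop, MeanBound δ (excess (product S α) κ) B Y]) ∧
    -- (2) the order
    (∀ m : ℤ, List.TFAE [
      NoZeros (1 / 2) F ∧ Order (1 / 2) F m,
      ∃ B : ℝ, ∃ᶠ Y : ℝ in atTop, MeanBound δ (error (product S α) m) B Y,
      ∃ B : ℝ, ∀ᶠ Y : ℝ in atTop, MeanBound δ (error (product S α) m) B Y]) ∧
    -- (3) the order and the leading coefficient
    (∀ (m : ℤ) (A : ℝ), 0 < A → List.TFAE [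
      NoZeros (1 / 2) F ∧ ∃ a : ℂ, IsLeading (1 / 2) F m a ∧ ‖a‖ = A,
      ∀ ε : ℝ, 0 < ε → ∃ᶠ Y : ℝ in atTop, MeanBound δ (fun y => |ratio (productStar S α) A m y|) ε Y,
      ∀ ε : ℝ, 0 < ε → ∀ᶠ Y : ℝ in atTop, MeanBound δ (fun y => |ratio (productStar S α) A m y|) ε Y]) ∧
    -- (4) root numbers: the exponents below `w + 2`
    (∀ w : ℤ, w = 0 ∨ w = 1 → (∀ m : ℤ, Order (1 / 2) F m → 2 ∣ m - w) → ∀ κ : ℝ, w ≤ κ → κ < w + 2 → List.TFAE [
      NoZeros (1 / 2) F ∧ Order (1 / 2) F w,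
      ∃ B : ℝ, ∃ᶠ Y : ℝ in atTop, MeanBound δ (excess (product S α) κ) B Y,
      ∃ B : ℝ, ∀ᶠ Y : ℝ in atTop, MeanBound δ (excess (product S α) κ) B Y]) ∧
    (∀ r : ℤ, (∀ m : ℤ, Order (1 / 2) F m → 2 ∣ m - r) → ∀ κ : ℝ, r ≤ κ → κ < r + 2 → List.TFAE [
      NoZeros (1 / 2) F ∧ ∃ m : ℤ, Order (1 / 2) F m ∧ m ≤ r,
      ∃ B : ℝ, ∃ᶠ Y : ℝ in atTop, MeanBound δ (excess (product S α) κ) B Y,
      ∃ B : ℝ, ∀ᶠ Y : ℝ in atTop, MeanBound δ (excess (product S α) κ) B Y]) ∧
    -- (5) in every window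
    (∀ (m : ℤ) (a : ℂ), IsLeading (1 / 2) F m a → ∀ A : ℝ, ‖a‖ < A → ∃ β : ℝ, 0 < β ∧
      ∀ᶠ Y : ℝ in atTop, ¬ MeanBound δ (fun y => max (ratio (productStar S α) A m y) 0) β Y) := by
  have hE : Pool.Agent.Q18.P.Euler (1 / 2) S α F := fun s hs => hF.euler s (by linarith)
  have hc : (1 / 2 : ℝ) = (((0 : ℕ) : ℝ) + 1) / 2 := by norm_num
  have hb : Pool.Agent.Q18.P.Bdd 0 S α := by
    intro v hv j
    rw [hF.abs v hv j]
    simp
  have L := Pool.Agent.Q18.P.laws hc hb hF.holo hE h0 h1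
  refine ⟨L.upper, L.order, L.lead, fun w hw hp κ h2 h3 => ?_, fun r hp κ h2 h3 => L.parity hp h2 h3, L.omega⟩
  have t := L.parity hp h2 h3
  have e1 : (NoZeros (1 / 2) F ∧ ∃ m : ℤ, Order (1 / 2) F m ∧ m ≤ w) ↔ NoZeros (1 / 2) F ∧ Order (1 / 2) F w := by
    refine and_congr_right fun _ => ⟨?_, fun h => ⟨w, h, le_rfl⟩⟩
    rintro ⟨m, hm, hmw⟩
    have h4 := hp m hm
    have h5 := Pool.Agent.Q18.P.order_nonneg hF.holo hm
    have : m = w := by omega
    rw [← this]
    exact hm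
  rw [e1] at t
  exact t

end Pool.Agent.Results.MP_7c08ba_nt.ConjugateSelfDualWindows
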