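import Mathlib
import Pool.Agent.Q18.RS.GL3b

/-!
# `GL_3` over a number field: the Rankin-Selberg prime ideal sum from one side, at every scale

Let `K` be a number field and `π` a unitary cuspidal automorphic representation of `GL_3` over `K`, unramified outside
the finite set `S` of finite places, with Satake parameters `α_{i,v}` and `λ(v) = ∑_i α_{i,v}`, `v ∉ S`.  Write `N v`
for the norm of `v` (`qq v` below).  The prime number theorem for `L(s, π × π~)` says that

  `Δ(x) = ∑_{N v ≤ x, v ∉ S} (1 - |λ(v)|²)`

is `o(x / log x)`.  We show: suppose that for some `c ≥ 1/2` and `δ > 0` there are arbitrarily large `X` such that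
`Δ(x) < x^c` for all `x ∈ [X^{1-δ}, X]` (an upper bound only, on one arbitrarily sparse sequence of windows).  Then

* **`|log_{N v} |α_{i,v}|| ≤ c / 2` for all `v ∉ S` and all `i`**, the bound `c/2` towards the Ramanujan conjecture;
* all zeros and poles of the partial adjoint `L`-function `L^S(s, π, Ad)` have real part `≤ c`.

In other words, the violation `θ_v > c/2` of the Ramanujan conjecture at ONE place, `c ≥ 1/2`, forces for all large `X`
an `x ∈ [X^{1-δ}, X]` with `∑_{N v ≤ x} |λ(v)|² ≤ ∑_{N v ≤ x} 1 - x^c`.  With the prime powers (weights `1/k`) we show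
that, unconditionally, for every `c < 1/2` and all large `X` there is an `x ∈ [X^{1-δ}, X]` with

  `∑_{(N v)^k ≤ x} (1 - |α_{1,v}^k + α_{2,v}^k + α_{3,v}^k|²) / k ≥ x^c`,

and the same for `c < Re ρ`, `ρ` a zero or a pole of `L^S(s, π, Ad)`.

The results on `π` in `MP_08cfa9_nt.TemperedEveryScaleGL3` and `SmallEigenvaluesGL3`, `LeastTemperedPlace` (starting
results) concern sums of NONNEGATIVE terms `max(0, 1 - |λ(v)|²)` or counting functions of tempered places; there large
eigenvalues cannot compensate small ones, and no upper bound for the parameters at a given place follows.  For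
`K = ℚ` and all `n` see `MP_08cfa9_nt.OneSidedEveryScale`, where the adjoint `L`-function is not used.

The structure `AdjointGL3` lists what is used of `π`; all of it is known: the local components are unitary; the
Rankin-Selberg series converges absolutely for `Re s > 1`; the adjoint `L`-function
`L(s, π, Ad) = L(s, π × π~) / ζ_K(s)` is meromorphic in the plane, satisfies the functional equation, has polynomial
growth in vertical strips, and is holomorphic for `Re s ≥ 1/2` and for `|Im s|` large (Ginzburg-Jiang, Hundley-Zhang).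

The proof: let `F(s) = L^S(s, π, Ad)`, without the Euler factor at `v` if `π_v` violates the conjecture, which then has
a real zero at `2 θ_v`.  Let `A(u)` be the summatory function of the coefficients of `-log F`.  The average of
`A(u) e^{-σu}` against a Gaussian centred at `Y` (`σ` real, slightly to the left of the rightmost singularities of `F`) is
`≥ -o(1)`, the branch cuts at real zeros contributing with the right sign; the one at a suitable complex point is
exponentially large, as a single term of the explicit formula dominates.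
-/

set_option autoImplicit false

namespace Pool.Agent.Results.MP_8410ab_nt.OneSidedGL3

open NumberField IsDedekindDomain Pool.Agent.TH861.GL3
open Pool.Agent.TH949.TX (AdjointGL3)
open Pool.Agent.Q18.RS (Sing3)

open scoped Classical in
/-- **A one-sided bound on one sequence of windows, and the signed sum over prime powers at every scale.** -/
theorem result {K : Type*} [Field K] [NumberField K] {S : Finset (HeightOneSpectrum (𝓞 K))}
    {α : PL S → Fin 3 → ℂ} (h : AdjointGL3 α) {c δ : ℝ} (hδ : 0 < δ) :
    (1 / 2 ≤ c → (∀ X₀ : ℝ, ∃ X : ℝ, X₀ ≤ X ∧ ∀ x : ℝ, X ^ (1 - δ) ≤ x → x ≤ X →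
        (∑' v : PL S, if (qq v.1 : ℝ) ≤ x then 1 - ‖∑ i, α v i‖ ^ 2 else 0) < x ^ c) →
      (∀ (v : PL S) (i : Fin 3), |Real.logb (qq v.1 : ℝ) ‖α v i‖| ≤ c / 2) ∧ ¬ Sing3 α c) ∧
    (c < 1 / 2 ∨ Sing3 α c → ∃ X₀ : ℝ, ∀ X : ℝ, X₀ ≤ X → ∃ x : ℝ, X ^ (1 - δ) ≤ x ∧ x ≤ X ∧
      x ^ c ≤ ∑' y : PL S × ℕ, if (qq y.1.1 : ℝ) ^ (y.2 + 1) ≤ x then
        (1 - ‖∑ i, α y.1 i ^ (y.2 + 1)‖ ^ 2) / ((y.2 : ℝ) + 1) else 0) := by
  refine ⟨fun hc0 hX => ?_, fun hc => Filter.eventually_atTop.1 (Pool.Agent.Q18.RS.gl3_powers h hc hδ)⟩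
  have key : ¬ ((∃ (v : PL S) (i : Fin 3), c < 2 * |Real.logb (qq v.1 : ℝ) ‖α v i‖|) ∨ Sing3 α c) := by
    intro hcon
    obtain ⟨X₀, hX₀⟩ := Filter.eventually_atTop.1 (Pool.Agent.Q18.RS.gl3_primes h hc0 hcon hδ)
    obtain ⟨X, hX1, hX2⟩ := hX X₀
    obtain ⟨x, h1, h2, h3⟩ := hX₀ X hX1
    exact absurd (hX2 x h1 h2) (not_lt.2 h3)
  rw [not_or] at key
  refine ⟨fun v i => ?_, key.2⟩
  by_contra h1
  exact key.1 ⟨v, i, by linarith [not_le.1 h1]⟩

end Pool.Agent.Results.MP_8410ab_nt.OneSidedGL3
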