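import Mathlib
import Pool.Agent.Q18.RS.Adm

/-!
# Selberg's eigenvalue conjecture: eigenvalues `< 63/256` force a one-sided deviation of Hecke eigenvalues, at every scale

Let `f` be a Maass cusp form for a congruence subgroup, a newform of level `N`, with Laplace eigenvalue
`0 < λ < 1/4`, i.e. a counterexample to Selberg's conjecture (a nonconstant square-integrable eigenfunction with
`0 < λ < 1/4` on any congruence surface is a combination of such forms, their oldforms and their translates).  Let
`α_p, β_p`, `p ∤ N`, be its Satake parameters and `λ_f(p⁴) = α_p⁴ + α_p³β_p + α_p²β_p² + α_pβ_p³ + β_p⁴` the normalised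
eigenvalues of `T_{p⁴}`.  By Kim and Sarnak `λ ≥ 975/4096 = 1/4 - (7/64)²`.  We show: let `c ≥ 1/2` and

  `λ < 1/4 - (c/8)²`    (for `c = 1/2` this is `λ < 63/256 = 1/4 - (1/16)²`; the open range is `975/4096 ≤ λ < 1/4`).

Then for every `δ > 0` and **all** large `X` there is an `x ∈ [X^{1-δ}, X]` with

  `∑_{p ≤ x, p ∤ N} |λ_f(p⁴)|² ≤ ∑_{p ≤ x, p ∤ N} 1 - x^c`.

In other words: if for some `c ≥ 1/2`, `δ > 0` there are arbitrarily large `X` with
`∑_{p ≤ x} (1 - |λ_f(p⁴)|²) < x^c` for all `x ∈ [X^{1-δ}, X]` - a bound from one side, on one arbitrarily sparse sequence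
of windows; the expected order of magnitude is `x^{1/2}` -, then `λ ≥ 1/4 - (c/8)²`, which is better than the bound of
Kim and Sarnak for all `c < 7/8`, and reaches `63/256 - ε` for `c = 1/2 + ε`.  The same holds with `λ < 1/4 - (c/8)²`
replaced by `|log_p |α_p|| > c/8` for one prime `p ∤ N`.

The exponent `1/8` comes from the fourth symmetric power: by Kim, `Sym⁴ f` is an automorphic representation of `GL_5`,
and it is cuspidal by Kim and Shahidi (for `0 < λ < 1/4` the form `f` is not dihedral, tetrahedral or octahedral, as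
those have `λ ≥ 1/4`); the local factor of `L(s, Sym⁴ f × Sym⁴ f~)` at the real place has a pole at `s = 8 r`,
`r = √(1/4 - λ)`, and `8 r > 1/2` if `λ < 63/256`.

The structure `ExceptionalMaassForm` lists what is used: the local components of `Sym⁴ f` at `p ∤ N` are unitary; the
Rankin-Selberg series of `Sym⁴ f` converges absolutely for `Re s > 1`; `L(s, Sym⁴ f × Sym⁴ f~)` is entire except for a
simple pole at `s = 1`, of polynomial growth in vertical strips, and it satisfies the functional equation, with Euler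
factors of degree `25` at the primes dividing `N` (all this is in the structure `CuspidalRep` of the starting library,
with `n = 5`), and `Γ_ℝ(s - 8 r)` is one of its archimedean factors.

The proof is the one of `MP_08cfa9_nt.OneSidedEveryScale` (this run): the pole of the archimedean factor is a real zero
of `F(s) = L(s, Sym⁴ f × Sym⁴ f~) / ζ(s)`, which has no real poles in `s ≥ 1/2`; a localised explicit formula for the
summatory function of the coefficients of `-log F`, at a real point (where all real singularities contribute with the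
right sign) and at a complex point (where a single one dominates).
-/

set_option autoImplicit false

namespace Pool.Agent.Results.MP_a812b2_nt.SmallEigenvaluesForceBias

open Pool.Agent.W189.TP (PS)
open Pool.Agent.TH949.RES (CuspidalRep)

/-- the five Satake parameters of `Sym⁴ f` -/
def sym4 {S : Finset Nat.Primes} (α β : PS S → ℂ) (p : PS S) (i : Fin 5) : ℂ :=
  α p ^ (4 - (i : ℕ)) * β p ^ (i : ℕ)

/-- What is used of a Maass newform with Laplace eigenvalue `lam`, `0 < lam < 1/4`, and Satake parameters `α p`, `β p` at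
the primes `p ∉ S` (`S` is the set of primes dividing the level): the analytic properties of the Rankin-Selberg
`L`-function of its fourth symmetric power, a cuspidal representation of `GL_5`; one of the archimedean factors of this
`L`-function is `Γ_ℝ(s - 8 r)`, `r = √(1/4 - lam)`. -/
structure ExceptionalMaassForm (S : Finset Nat.Primes) (α β : PS S → ℂ) (lam : ℝ) : Prop where
  /-- the eigenvalue is positive -/
  pos : 0 < lam
  /-- the eigenvalue is exceptional -/
  lt : lam < 1 / 4
  /-- the fourth symmetric power -/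
  sym_four : ∃ (b : Nat.Primes → Fin (5 ^ 2) → ℂ) (κ : Fin (5 ^ 2 - 1) → ℂ),
    CuspidalRep S (sym4 α β) b κ ∧ ∃ j, κ j = -((8 * Real.sqrt (1 / 4 - lam) : ℝ) : ℂ)

open scoped Classical in
/-- **An eigenvalue `< 1/4 - (c/8)²` forces large values of `∑_{p ≤ x} (1 - |λ_f(p⁴)|²)` at every scale.** -/
theorem result {S : Finset Nat.Primes} {α β : PS S → ℂ} {lam : ℝ} (h : ExceptionalMaassForm S α β lam)
    {c δ : ℝ} (hc : 1 / 2 ≤ c) (hδ : 0 < δ)
    (hv : lam < 1 / 4 - (c / 8) ^ 2 ∨ ∃ p : PS S, c / 8 < |Real.logb ((p.1 : ℕ) : ℝ) ‖α p‖|) :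
    ∃ X₀ : ℝ, ∀ X : ℝ, X₀ ≤ X → ∃ x : ℝ, X ^ (1 - δ) ≤ x ∧ x ≤ X ∧
      x ^ c ≤ ∑' p : PS S, if ((p.1 : ℕ) : ℝ) ≤ x then
        1 - ‖α p ^ 4 + α p ^ 3 * β p + α p ^ 2 * β p ^ 2 + α p * β p ^ 3 + β p ^ 4‖ ^ 2 else 0 := by
  obtain ⟨b, κ, hrep, j, hj⟩ := h.sym_four
  have hadm : Pool.Agent.TH949.TX.Adm S (sym4 α β) b κ c := by
    rcases hv with hv | ⟨p, hp⟩
    · refine Or.inr (Or.inr (Or.inr (Or.inl ⟨j, 8 * Real.sqrt (1 / 4 - lam), hj, ?_⟩)))
      have h1 : c / 8 < Real.sqrt (1 / 4 - lam) := by
        refine (Real.lt_sqrt (by linarith)).2 ?_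
        linarith
      linarith
    · refine Or.inr (Or.inl ⟨p, 0, ?_⟩)
      have e1 : sym4 α β p 0 = α p ^ 4 := by
        unfold sym4
        simp
      rw [e1, norm_pow, Real.logb_pow, abs_mul]
      have e2 : |((4 : ℕ) : ℝ)| = 4 := by norm_num
      rw [e2]
      linarith
  have hmain := Pool.Agent.Q18.RS.adm_primes (by norm_num : 2 ≤ 5) hrep hc hadm hδ
  obtain ⟨X₀, hX₀⟩ := Filter.eventually_atTop.1 hmain
  refine ⟨X₀, fun X hX => ?_⟩
  obtain ⟨x, h1, h2, h3⟩ := hX₀ X hX
  refine ⟨x, h1, h2, h3.trans (le_of_eq (tsum_congr fun p => ?_))⟩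
  have e1 : ∑ i, sym4 α β p i = α p ^ 4 + α p ^ 3 * β p + α p ^ 2 * β p ^ 2 + α p * β p ^ 3 + β p ^ 4 := by
    unfold sym4
    simp [Fin.sum_univ_succ]
    ring
  rw [e1]

end Pool.Agent.Results.MP_a812b2_nt.SmallEigenvaluesForceBias
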