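import Mathlib
import Pool.Agent.Q18.RS.Sph

/-!
# Spherical cusp forms on `PGL_n`: a one-sided bound on one sequence of windows controls all places

Let `n ≥ 2` and let `φ` be a spherical cusp form on `PGL_n` over `ℚ`, with Satake parameters `α_{i,p}`, Langlands
parameters `μ_i` at the real place and Hecke eigenvalues `λ(p) = ∑_i α_{i,p}`. Recall
`θ_{φ,p} = max_i |log_p |α_{i,p}||` and `θ_{φ,∞} = max_i |Re μ_i|`.  Let

  `Δ(x) = ∑_{p ≤ x} (1 - |λ(p)|²)`,

which is `o(x / log x)` by the prime number theorem for `L(s, π × π~)`.  We show: if for some `c ≥ 1/2` and `δ > 0` there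
are arbitrarily large `X` such that

  `Δ(x) < x^c` for all `x ∈ [X^{1-δ}, X]`,

an upper bound only, on one (arbitrarily sparse) sequence of windows, then **`θ_{φ,v} ≤ c / 2` at every place
`v ≤ ∞`**, and all zeros and poles of `L(s, π × π~) / ζ(s)` have real part `≤ c`.  Equivalently, a strong violation of
the Ramanujan conjecture at ONE place, `θ_{φ,v} > c / 2 ≥ 1/4`, forces for ALL large `X` an `x ∈ [X^{1-δ}, X]` with
`∑_{p ≤ x} |λ(p)|² ≤ π(x) - x^c`.

`EveryScale` (starting results) has the hypothesis that `∑_{X^{1-δ} ≤ p ≤ X} max(0, 1 - |λ(p)|²) < X^c`, a bound for a sum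
of nonnegative terms, i.e. that there are few primes with small `|λ(p)|`; here the terms have both signs, and the
hypothesis is a one-sided form of the expected `Δ(x) ≪ x^{1/2+ε}`, in which large eigenvalues may compensate small
ones.  (By Landau's lemma, `Δ(x) < x^c` for ALL large `x` would be needed.)  The general lower bound at every scale, for
ramified representations of `GL_n` and with the prime powers, is `MP_08cfa9_nt.OneSidedEveryScale`.

The structure `SphericalCuspForm` lists what is used of `φ`: the local components are unitary; the Rankin-Selberg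
series converges absolutely for `Re s > 1`; `L(s, π × π~)` is entire except for a simple pole at `s = 1`, of polynomial
growth in vertical strips, and it satisfies the functional equation (Jacquet, Piatetski-Shapiro, Shalika; Moeglin,
Waldspurger). Nothing is assumed of `L(s, π × π~) / ζ(s)` at the zeros of `ζ`.

The proof: let `F(s) = L(s, π × π~) / ζ(s)`.  The Gamma factors force a zero of `F` at `2 θ_{φ,∞}`, and a zero at
`2 θ_{φ,p}` once the Euler factor at `p` is removed.  Let `A(u)` be the summatory function of the coefficients of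
`-log F`.  The average of `A(u) e^{-σu}` against a Gaussian centred at `Y` (`σ` real, slightly to the left of the
rightmost singularities of `F`) is `≥ -o(1)`, all branch cuts at real zeros contributing with the right sign; the one
at a suitable complex point `σ + i t` is exponentially large, as a single term of the explicit formula dominates.  This
contradicts `A(u) < e^{cu}` in a window around `Y`.
-/

set_option autoImplicit false

namespace Pool.Agent.Results.MP_fa98d2_nt.OneSidedAllPlaces

open Pool.Agent.TH949.RES (SphericalCuspForm)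
open Pool.Agent.TH949.TX (ZeroPole)

open scoped Classical in
/-- **Bounds towards Ramanujan at all places from a one-sided bound on one sequence of windows.** -/
theorem result {n : ℕ} (hn : 2 ≤ n) (α : Nat.Primes → Fin n → ℂ) (μ : Fin n → ℂ) (h : SphericalCuspForm α μ)
    (c δ : ℝ) (hδ : 0 < δ) (hc : 1 / 2 ≤ c)
    (hX : ∀ X₀ : ℝ, ∃ X : ℝ, X₀ ≤ X ∧ ∀ x : ℝ, X ^ (1 - δ) ≤ x → x ≤ X →
      (∑' p : Nat.Primes, if ((p : ℕ) : ℝ) ≤ x then 1 - ‖∑ i, α p i‖ ^ 2 else 0) < x ^ c) :
    (∀ (p : Nat.Primes) (i : Fin n), |Real.logb ((p : ℕ) : ℝ) ‖α p i‖| ≤ c / 2) ∧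
      (∀ i, |(μ i).re| ≤ c / 2) ∧ ¬ ZeroPole α c := by
  have key : ¬ ((∃ (p : Nat.Primes) (i : Fin n), c < 2 * |Real.logb ((p : ℕ) : ℝ) ‖α p i‖|) ∨
      (∃ i, c < 2 * |(μ i).re|) ∨ ZeroPole α c) := by
    intro hcon
    obtain ⟨X₀, hX₀⟩ := Filter.eventually_atTop.1 (Pool.Agent.Q18.RS.sph_primes hn h hc hcon hδ)
    obtain ⟨X, hX1, hX2⟩ := hX X₀
    obtain ⟨x, h1, h2, h3⟩ := hX₀ X hX1
    exact absurd (hX2 x h1 h2) (not_lt.2 h3)
  rw [not_or, not_or] at key
  obtain ⟨k2, k3, k4⟩ := key
  refine ⟨fun p i => ?_, fun i => ?_, k4⟩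
  · by_contra h1
    exact k2 ⟨p, i, by linarith [not_le.1 h1]⟩
  · by_contra h1
    exact k3 ⟨i, by linarith [not_le.1 h1]⟩

end Pool.Agent.Results.MP_fa98d2_nt.OneSidedAllPlaces
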